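import Pool.Agent.Lib.Z2.Un.U

/-!
# Uniqueness of certified pairs: the theorem (MP_8dbd20_lc, section 7)
-/

set_option linter.unusedVariables false

namespace Pool.Agent.Lib.Z2.Un

open Pool.Agent.Lib.Z2

section
variable {S S' : Str} {Gm : Set ℕ → Set ℕ} {d T σ τ : Set ℕ} {G : Cond → Prop} {x x' p q r : Cond}

/-- CLAIM (a): below some member of `G`, arbitrarily large numbers can be put into the real named `τ` -/
theorem claimA [Good S] [Good S'] (hGm : Dfn S' (fun x : ℕ × Set ℕ => x.1 ∈ Gm x.2))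
    (hGm' : Dfn S (fun x : ℕ × Set ℕ => x.1 ∈ Gm x.2)) (lv : Lv S S' Gm d)
    (hG : Gen S Gm G) (hTU : T ∈ S'.U) (hT : ∀ s : Node, inn T s → inn T s.tail)
    (hτ : τ ∈ S'.U) (hsτ : Sup S τ T) (hz : (evl S G τ).Infinite) :
    ∃ p, G p ∧ CT S' T p ∧ ∀ x, CT S' T x → Le Gm x p → ∀ K, ∃ y, CT S' T y ∧ Le Gm y x ∧
      ∃ k, K ≤ k ∧ Pos S' Gm τ k y := by
  have hTp : T ∈ S'.Pm := by rw [lv.pm']; exact hTU
  have hτp : τ ∈ S'.Pm := by rw [lv.pm']; exact hτ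
  obtain ⟨p, hp, hpT, h⟩ := alt hGm hGm' lv hG hTU hT
    (E := fun x => ∃ K : ℕ, ∀ y : Cond, vl S'.U y → (CT S' T y → Le Gm y x → ∀ k : ℕ, K ≤ k → ¬ Pos S' Gm τ k y)) (by
    refine Dfn.exN (P := fun (x : Cond) (K : ℕ) => ∀ y : Cond, vl S'.U y → (CT S' T y → Le Gm y x →
      ∀ k : ℕ, K ≤ k → ¬ Pos S' Gm τ k y)) ?_
    refine Dfn.allV (P := fun (x : Cond × ℕ) (y : Cond) => CT S' T y → Le Gm y x.1 →
      ∀ k : ℕ, x.2 ≤ k → ¬ Pos S' Gm τ k y) ?_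
    refine Dfn.imp (CT.dfn hTp Smp.id.snd.df) (Dfn.imp (Dfn.le' hGm Smp.id.snd.df Smp.id.fst.fst.df) ?_)
    refine Dfn.allN (P := fun (x : (Cond × ℕ) × Cond) (k : ℕ) => x.1.2 ≤ k → ¬ Pos S' Gm τ k x.2) ?_
    exact Dfn.imp (Dfn.le Smp.id.fst.fst.snd.df Smp.id.snd.df)
      (Dfn.not (Pos.dfn hGm hτp Smp.id.snd.df Smp.id.fst.snd.df)))
  refine ⟨p, hp, hpT, ?_⟩
  rcases h with ⟨K, h⟩ | h
  · exfalso
    apply hz
    refine (Set.finite_lt_nat K).subset ?_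
    intro k hk
    simp only [Set.mem_ofPred_eq]
    by_contra hc
    obtain ⟨w, hw, hwG⟩ := hk
    have hw' := (ent_iff lv hτ k w).1 hw
    obtain ⟨r, hr, hrT, hrp, hrw⟩ := dirD lv hG hT hp hpT hwG ⟨hw'.1, hsτ k w hw⟩
    exact h r (cond_vl hrT.1) hrT hrp k (not_lt.1 hc) ⟨w, hw', hrw⟩
  · intro x hxT hxp K
    have h1 := h x hxT hxp
    push Not at h1
    obtain ⟨y, _, hyT, hyx, k, hk, hP⟩ := h1 K
    exact ⟨y, hyT, hyx, k, hk, hP⟩

/-- if no difference with the pair of `s` can be forced below a member of `G`, the pair is that of `s` -/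
theorem eqCase [Good S] [Good S'] (hGm : Dfn S' (fun x : ℕ × Set ℕ => x.1 ∈ Gm x.2))
    (hGm' : Dfn S (fun x : ℕ × Set ℕ => x.1 ∈ Gm x.2)) (lv : Lv S S' Gm d)
    (hG : Gen S Gm G) (hTU : T ∈ S'.U) (hT : ∀ s : Node, inn T s → inn T s.tail)
    (hσ : σ ∈ S'.U) (hτ : τ ∈ S'.U) (hsσ : Sup S σ T) (hsτ : Sup S τ T) {s : Node} (hs : inn T s)
    (hp : G p) (hpT : CT S' T p) (h : ∀ x, CT S' T x → Le Gm x p → ∀ i, ¬ Dff S' T Gm σ τ s i x) :
    evl S G τ = gen G s ∧ evl S G σ = gp G s := by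
  have hTp : T ∈ S'.Pm := by rw [lv.pm']; exact hTU
  have hτp : τ ∈ S'.Pm := by rw [lv.pm']; exact hτ
  have hσp : σ ∈ S'.Pm := by rw [lv.pm']; exact hσ
  have key : ∀ i : ℕ, ∃ r, G r ∧ CT S' T r ∧ s ∈ nds r ∧ i < ht r ∧ ((i ∈ evl S G τ ↔ i ∈ ub r s)) ∧
      (i ∈ evl S G σ ↔ i ∈ ubp r s) := by
    intro i
    obtain ⟨x, hx, hxT, hs', hi, hd1, hd2⟩ := genD hGm hGm' lv hG hTU hT
      (D := fun x => s ∈ nds x ∧ i < ht x ∧ (Pos S' Gm τ i x ∨ Neg S' T Gm τ i x) ∧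
        (Pos S' Gm σ i x ∨ Neg S' T Gm σ i x)) (by
      refine Dfn.and (Dfn.pmem (DF.constN s) (DF.nds DF.id)) (Dfn.and (Dfn.lt (DF.constN i) (DF.ht DF.id)) ?_)
      exact Dfn.and (Dfn.or (Pos.dfn hGm hτp (DF.constN i) DF.id) (Neg.dfn hGm hTp hτp (DF.constN i) DF.id))
        (Dfn.or (Pos.dfn hGm hσp (DF.constN i) DF.id) (Neg.dfn hGm hTp hσp (DF.constN i) DF.id))) (by
      intro x hx
      have h1 : CT S' T (adn x s) := ⟨adn_cond hx.1 s, adn_inT hT hx.2 hs⟩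
      have h2 : CT S' T (zx (adn x s) (i + 1)) := ⟨zx_cond h1.1 _, h1.2⟩
      obtain ⟨y, hy1, hy2, hy3⟩ := dec1 (S := S') (T := T) (Gm := Gm) (σ := τ) i h2
      obtain ⟨y', hz1, hz2, hz3⟩ := dec1 (S := S') (T := T) (Gm := Gm) (σ := σ) i hy1
      have h3 : Le Gm y' (zx (adn x s) (i + 1)) := le_trans hy1.1 hz2 hy2
      refine ⟨y', hz1, ?_, ?_, ?_, ?_, hz3⟩
      · exact le_trans h2.1 h3 (le_trans h1.1 (zx_le h1.1 _) (adn_le hx.1 s))
      · exact h3.1 s (mem_nds_adn.2 (Or.inr (List.suffix_refl s)))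
      · have h4 : i + 1 ≤ ht (zx (adn x s) (i + 1)) := le_max_left _ _
        have h5 := h3.2.1
        omega
      · exact hy3.imp (fun h => h.mono hy1.1 hz2) (fun h => h.mono hz1.1 hz2))
    obtain ⟨r, hr, hrT, hrp, hrx⟩ := dirD lv hG hT hp hpT hx hxT
    have hs1 : s ∈ nds r := hrx.1 s hs'
    have hi1 : i < ht r := lt_of_lt_of_le hi hrx.2.1
    have hno := h r hrT hrp i
    refine ⟨r, hr, hrT, hs1, hi1, ?_, ?_⟩
    · rcases hd1 with h1 | h1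
      · have h1' := h1.mono hxT.1 hrx
        have h2 : i ∈ ub r s := by
          by_contra hc
          exact hno ⟨hs1, hi1, Or.inl ⟨h1', hc⟩⟩
        exact ⟨fun _ => h2, fun _ => pos_mem lv hG hτ hr h1'⟩
      · have h1' := h1.mono hrT.1 hrx
        have h2 : i ∉ ub r s := by
          intro hc
          exact hno ⟨hs1, hi1, Or.inr (Or.inl ⟨h1', hc⟩)⟩
        exact ⟨fun h => absurd h (neg_mem lv hG hT hτ hsτ hr hrT h1'), fun h => absurd h h2⟩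
    · rcases hd2 with h1 | h1
      · have h1' := h1.mono hxT.1 hrx
        have h2 : i ∈ ubp r s := by
          by_contra hc
          exact hno ⟨hs1, hi1, Or.inr (Or.inr (Or.inl ⟨h1', hc⟩))⟩
        exact ⟨fun _ => h2, fun _ => pos_mem lv hG hσ hr h1'⟩
      · have h1' := h1.mono hrT.1 hrx
        have h2 : i ∉ ubp r s := by
          intro hc
          exact hno ⟨hs1, hi1, Or.inr (Or.inr (Or.inr ⟨h1', hc⟩))⟩
        exact ⟨fun h => absurd h (neg_mem lv hG hT hσ hsσ hr hrT h1'), fun h => absurd h h2⟩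
  constructor
  · ext i
    obtain ⟨r, hr, hrT, hs1, hi1, h1, h2⟩ := key i
    rw [h1, mem_gen hG hr hs1 hi1]
  · ext i
    obtain ⟨r, hr, hrT, hs1, hi1, h1, h2⟩ := key i
    rw [h2, mem_gp hG hr hs1 hi1]

/-- CLAIM (b): if the pair is not the pair of a node of `T`, then below some member of `G` a difference
with the pair of each node of `T` can be forced -/
theorem claimB [Good S] [Good S'] (hGm : Dfn S' (fun x : ℕ × Set ℕ => x.1 ∈ Gm x.2))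
    (hGm' : Dfn S (fun x : ℕ × Set ℕ => x.1 ∈ Gm x.2)) (lv : Lv S S' Gm d)
    (hG : Gen S Gm G) (hTU : T ∈ S'.U) (hT : ∀ s : Node, inn T s → inn T s.tail)
    (hσ : σ ∈ S'.U) (hτ : τ ∈ S'.U) (hsσ : Sup S σ T) (hsτ : Sup S τ T)
    (hne : ¬ ∃ s, inn T s ∧ evl S G τ = gen G s ∧ evl S G σ = gp G s) :
    ∃ p, G p ∧ CT S' T p ∧ ∀ x, CT S' T x → Le Gm x p → ∀ s, inn T s → ∃ y, CT S' T y ∧ Le Gm y x ∧
      ∃ i, Dff S' T Gm σ τ s i y := by
  have hTp : T ∈ S'.Pm := by rw [lv.pm']; exact hTU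
  have hτp : τ ∈ S'.Pm := by rw [lv.pm']; exact hτ
  have hσp : σ ∈ S'.Pm := by rw [lv.pm']; exact hσ
  obtain ⟨p, hp, hpT, h⟩ := alt hGm hGm' lv hG hTU hT
    (E := fun x => ∃ s : Node, inn T s ∧ ∀ y : Cond, vl S'.U y → (CT S' T y → Le Gm y x → ∀ i : ℕ,
      ¬ Dff S' T Gm σ τ s i y)) (by
    refine Dfn.exN (P := fun (x : Cond) (s : Node) => inn T s ∧ ∀ y : Cond, vl S'.U y → (CT S' T y → Le Gm y x →
      ∀ i : ℕ, ¬ Dff S' T Gm σ τ s i y)) ?_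
    refine Dfn.and (Dfn.inn (DF.constR hTp) Smp.id.snd.df) ?_
    refine Dfn.allV (P := fun (x : Cond × Node) (y : Cond) => CT S' T y → Le Gm y x.1 →
      ∀ i : ℕ, ¬ Dff S' T Gm σ τ x.2 i y) ?_
    refine Dfn.imp (CT.dfn hTp Smp.id.snd.df) (Dfn.imp (Dfn.le' hGm Smp.id.snd.df Smp.id.fst.fst.df) ?_)
    refine Dfn.allN (P := fun (x : (Cond × Node) × Cond) (i : ℕ) => ¬ Dff S' T Gm σ τ x.1.2 i x.2) ?_
    exact Dfn.not (Dff.dfn hGm hTp hσp hτp Smp.id.fst.fst.snd.df Smp.id.snd.df Smp.id.fst.snd.df))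
  refine ⟨p, hp, hpT, ?_⟩
  rcases h with ⟨s, hs, h⟩ | h
  · exfalso
    refine hne ⟨s, hs, eqCase hGm hGm' lv hG hTU hT hσ hτ hsσ hsτ hs hp hpT ?_⟩
    intro x hx hxp i
    exact h x (cond_vl hx.1) hx hxp i
  · intro x hxT hxp s hs
    have h1 := h x hxT hxp
    push Not at h1
    obtain ⟨y, _, hyT, hyx, i, hi⟩ := h1 s hs
    exact ⟨y, hyT, hyx, i, hi⟩

/-- differences with finitely many nodes -/
theorem dffs {p0 : Cond} (hb : ∀ x, CT S' T x → Le Gm x p0 → ∀ s, inn T s → ∃ y, CT S' T y ∧ Le Gm y x ∧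
      ∃ i, Dff S' T Gm σ τ s i y) (l : List Node) (hl : ∀ s ∈ l, inn T s) (hx : CT S' T x) (hxp : Le Gm x p0) :
    ∃ y N, CT S' T y ∧ Le Gm y x ∧ ∀ s ∈ l, ∃ i, i < N ∧ Dff S' T Gm σ τ s i y := by
  induction l with
  | nil => exact ⟨x, 0, hx, le_refl hx.1, fun s hs => absurd hs (by simp)⟩
  | cons s l ih =>
    obtain ⟨y, N, hy, hyx, h⟩ := ih (fun t ht => hl t (by simp [ht]))
    obtain ⟨y', hy', hyy, i, hi⟩ := hb y hy (le_trans hx.1 hyx hxp) s (hl s (by simp))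
    refine ⟨y', max N (i + 1), hy', le_trans hy.1 hyy hyx, ?_⟩
    intro t ht
    rcases List.mem_cons.1 ht with h1 | h1
    · subst h1
      exact ⟨i, lt_of_lt_of_le (Nat.lt_succ_self i) (le_max_right _ _), hi⟩
    · obtain ⟨j, hj, hd⟩ := h t h1
      exact ⟨j, lt_of_lt_of_le hj (le_max_left _ _), hd.mono hy.1 hy'.1 hyy⟩

/-- THE CODING STEP: below `p` some condition decides a number of the real named `τ` with code in `Gm d` -/
theorem codeStep [Good S] [Good S'] (hGm : Dfn S' (fun x : ℕ × Set ℕ => x.1 ∈ Gm x.2)) (lv : Lv S S' Gm d)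
    (hTU : T ∈ S'.U) (hσ : σ ∈ S'.U) (hτ : τ ∈ S'.U) (K : ℕ) {p pa pb : Cond} (hp : CT S T p)
    (hpa : CT S' T pa) (hpb : CT S' T pb) (h1 : Le Gm (low S' p) pa) (h2 : Le Gm (low S' p) pb)
    (ha : ∀ x, CT S' T x → Le Gm x pa → ∀ K, ∃ y, CT S' T y ∧ Le Gm y x ∧ ∃ k, K ≤ k ∧ Pos S' Gm τ k y)
    (hb : ∀ x, CT S' T x → Le Gm x pb → ∀ s, inn T s → ∃ y, CT S' T y ∧ Le Gm y x ∧
      ∃ i, Dff S' T Gm σ τ s i y) :
    ∃ x w, CT S' T x ∧ Bad S' T Gm σ τ K w x ∧ w ∈ Gm d ∧ Le Gm (adF x (fs p)) p := by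
  classical
  have hTp : T ∈ S'.Pm := by rw [lv.pm']; exact hTU
  have hτp : τ ∈ S'.Pm := by rw [lv.pm']; exact hτ
  have hσp : σ ∈ S'.Pm := by rw [lv.pm']; exact hσ
  have hlp : CT S' T (low S' p) := ⟨low_cond hp.1, hp.2⟩
  obtain ⟨e, w, ⟨x, hxv, hxT, hxp, hxe, hxB⟩, hw, he⟩ := lv.mg2 ((fs p).filter (fun c => decide (c ∉ S'.C)))
    (by
      intro c hc
      have := List.mem_filter.1 hc
      exact ⟨hp.1.2.2 c this.1, by simpa using this.2⟩)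
    (fun e w => ∃ x : Cond, vl S'.U x ∧ (CT S' T x ∧ Le Gm x (low S' p) ∧ (∀ i : ℕ, i ∈ Fst e ↔ i ∈ nw p x) ∧
      Bad S' T Gm σ τ K w x)) (by
    refine Dfn.exV (P := fun (y : ℕ × ℕ) (x : Cond) => CT S' T x ∧ Le Gm x (low S' p) ∧
      (∀ i : ℕ, i ∈ Fst y.1 ↔ i ∈ nw p x) ∧ Bad S' T Gm σ τ K y.2 x) ?_
    refine Dfn.and (CT.dfn hTp Smp.id.snd.df) (Dfn.and (Dfn.le' hGm Smp.id.snd.df (DF.constCond ?_))
      (Dfn.and ?_ (Bad.dfn hGm hTp hσp hτp K Smp.id.fst.snd.df Smp.id.snd.df)))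
    · intro X hX
      rw [lv.pm']
      exact Good.cu X (hlp.1.2.2 X hX)
    · refine Dfn.allN (P := fun (y : (ℕ × ℕ) × Cond) (i : ℕ) => i ∈ Fst y.1.1 ↔ i ∈ nw p y.2) ?_
      exact Dfn.iff (dfn_Fst Smp.id.snd.df Smp.id.fst.fst.fst.df) (dfn_nw p Smp.id.snd.df Smp.id.fst.snd.df)) (by
    intro L
    have hz : CT S' T (zx (low S' p) L) := ⟨zx_cond hlp.1 L, hlp.2⟩
    have hzl : Le Gm (zx (low S' p) L) (low S' p) := zx_le hlp.1 L
    obtain ⟨x1, N, hx1, hx1z, hN⟩ := dffs hb (nds p) hp.2 hz (le_trans hlp.1 hzl h2)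
    obtain ⟨x2, hx2, hx21, k, hk, hkp⟩ := ha x1 hx1 (le_trans hz.1 hx1z (le_trans hlp.1 hzl h1))
      (max L (max K N))
    obtain ⟨x3, v, hx3, hx32, hv⟩ := decs (S := S') (T := T) (Gm := Gm) (σ := τ) k hx2
    obtain ⟨x4, v', hx4, hx43, hv'⟩ := decs (S := S') (T := T) (Gm := Gm) (σ := σ) k hx3
    have hx42 : Le Gm x4 x2 := le_trans hx3.1 hx43 hx32
    have hx41 : Le Gm x4 x1 := le_trans hx2.1 hx42 hx21
    have hx4z : Le Gm x4 (zx (low S' p) L) := le_trans hx1.1 hx41 hx1z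
    have hv4 : Dci S' T Gm τ k v x4 := hv.mono hx3.1 hx4.1 hx43
    obtain ⟨e, he⟩ := exists_Fst (nw_finite p x4)
    have hLk : L ≤ k := _root_.le_trans (le_max_left _ _) hk
    have hKk : K ≤ k := _root_.le_trans (_root_.le_trans (le_max_left _ _) (le_max_right _ _)) hk
    have hNk : N ≤ k := _root_.le_trans (_root_.le_trans (le_max_right _ _) (le_max_right _ _)) hk
    refine ⟨e, Nat.pair k (Nat.pair (Encodable.encode v) (Encodable.encode v')),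
      ⟨x4, cond_vl hx4.1, hx4, le_trans hz.1 hx4z hzl, fun i => by rw [he],
        k, v, v', hKk, hkp.mono hx2.1 hx42, hv4, hv', rfl⟩,
      _root_.le_trans hLk (Nat.left_le_pair _ _), ?_, ?_⟩
    · rw [he]
      rintro ⟨s, hs, k', hk', hk2, heq⟩
      unfold sg at heq
      obtain ⟨e1, e2⟩ := Nat.pair_eq_pair.1 heq
      obtain ⟨e3, e4⟩ := Nat.pair_eq_pair.1 e2
      subst e1
      obtain ⟨i, hi, hd⟩ := hN s hs
      refine dff_ne hx4 (hd.mono hx1.1 hx4.1 hx41) (lt_of_lt_of_le hi hNk) hv4 hv' ⟨?_, ?_⟩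
      · exact Encodable.encode_injective e3
      · exact Encodable.encode_injective e4
    · intro i hi
      rw [he] at hi
      obtain ⟨s, hs, k', hk', hk2, rfl⟩ := hi
      exact _root_.le_trans (le_zx_new hlp.1 hx4z hs hk' hk2) (le_sg _ _ _))
  refine ⟨x, w, hxT, hxB, hw, adF_le hxp ?_⟩
  intro c hc hcC s hs k hk hk'
  refine he c (List.mem_filter.2 ⟨hc, by simpa using hcC⟩) _ ((hxe _).2 ⟨s, hs, k, hk, hk', rfl⟩)

/-- UNIQUENESS of certified pairs: if the real named `τ` is infinite and only finitely many of its numbers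
have their code in `Gm d`, then the pair named by `(σ, τ)` is the pair of a node of `T`. -/
theorem unique [Good S] [Good S'] (hGm : Dfn S' (fun x : ℕ × Set ℕ => x.1 ∈ Gm x.2))
    (hGm' : Dfn S (fun x : ℕ × Set ℕ => x.1 ∈ Gm x.2)) (lv : Lv S S' Gm d)
    (hG : Gen S Gm G) (hTU : T ∈ S'.U) (hT : ∀ s : Node, inn T s → inn T s.tail)
    (hσ : σ ∈ S'.U) (hτ : τ ∈ S'.U) (hsσ : Sup S σ T) (hsτ : Sup S τ T) (hz : (evl S G τ).Infinite)
    (hc : {k | k ∈ evl S G τ ∧ sg k (evl S G τ) (evl S G σ) ∈ Gm d}.Finite) :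
    ∃ s, inn T s ∧ evl S G τ = gen G s ∧ evl S G σ = gp G s := by
  by_contra hne
  have hTp : T ∈ S'.Pm := by rw [lv.pm']; exact hTU
  have hτp : τ ∈ S'.Pm := by rw [lv.pm']; exact hτ
  have hσp : σ ∈ S'.Pm := by rw [lv.pm']; exact hσ
  obtain ⟨K, hK⟩ := hc.bddAbove
  obtain ⟨pa, hpa, hpaT, ha⟩ := claimA hGm hGm' lv hG hTU hT hτ hsτ hz
  obtain ⟨pb, hpb, hpbT, hb⟩ := claimB hGm hGm' lv hG hTU hT hσ hτ hsσ hsτ hne
  -- the predicate: below a bad condition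
  have hE1 : Dfn S' (fun y : ℕ × Cond => CT S' T y.2 ∧ Bad S' T Gm σ τ (K + 1) y.1 y.2) :=
    Dfn.and (CT.dfn hTp Smp.id.snd.df) (Bad.dfn hGm hTp hσp hτp (K + 1) Smp.id.fst.df Smp.id.snd.df)
  have hE2 := dfn_rel lv.pm lv.pm' lv.enu lv.cd lv.sub hE1
  have hdp : d ∈ S.Pm := by rw [lv.pm]; exact Good.cu d lv.dC
  have hE3 : Dfn S (fun q : Cond => ∃ w : ℕ, w ∈ Gm d ∧ ∃ x : Cond, vl S.U x ∧
      ((vl S'.U (w, x) ∧ CT S' T x ∧ Bad S' T Gm σ τ (K + 1) w x) ∧ Le Gm q x)) := by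
    refine Dfn.exN (P := fun (q : Cond) (w : ℕ) => w ∈ Gm d ∧ ∃ x : Cond, vl S.U x ∧
      ((vl S'.U (w, x) ∧ CT S' T x ∧ Bad S' T Gm σ τ (K + 1) w x) ∧ Le Gm q x)) ?_
    refine Dfn.and (Dfn.comp₂ (R := fun (n : ℕ) (c : Set ℕ) => n ∈ Gm c) hGm' Smp.id.snd.df (DF.constR hdp)) ?_
    refine Dfn.exV (P := fun (q : Cond × ℕ) (x : Cond) =>
      (vl S'.U (q.2, x) ∧ CT S' T x ∧ Bad S' T Gm σ τ (K + 1) q.2 x) ∧ Le Gm q.1 x) ?_
    refine Dfn.and ?_ (Dfn.le' hGm' Smp.id.fst.fst.df Smp.id.snd.df)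
    exact hE2.comp (f := fun y : (Cond × ℕ) × Cond => (y.1.2, y.2)) (DF.pair Smp.id.fst.snd.df Smp.id.snd.df)
  set E : Cond → Prop := fun q : Cond => ∃ w : ℕ, w ∈ Gm d ∧ ∃ x : Cond, vl S.U x ∧
      ((vl S'.U (w, x) ∧ CT S' T x ∧ Bad S' T Gm σ τ (K + 1) w x) ∧ Le Gm q x) with hEdef
  have hE4 : Dfn S (fun q : Cond => E q ∨ ∀ q', vl S.U q' → (IsCond S q' → Le Gm q' q → ¬ E q')) := by
    refine Dfn.or hE3 (Dfn.allV (P := fun (q q' : Cond) => IsCond S q' → Le Gm q' q → ¬ E q') ?_)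
    exact Dfn.imp (Dfn.isCond Smp.id.snd.df) (Dfn.imp (Dfn.le' hGm' Smp.id.snd.df Smp.id.fst.df)
      (hE3.comp Smp.id.snd.df).not)
  obtain ⟨q, hq, hqE⟩ := hG.meet _ hE4 (by
    intro p hp
    by_cases h : ∃ q, IsCond S q ∧ Le Gm q p ∧ E q
    · obtain ⟨q, h1, h2, h3⟩ := h
      exact ⟨q, h1, h2, Or.inl h3⟩
    · refine ⟨p, hp, le_refl hp, Or.inr ?_⟩
      intro q' _ h1 h2 h3
      exact h ⟨q', h1, h2, h3⟩)
  rcases hqE with hqE | hqE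
  · -- `G` contains a bad condition
    obtain ⟨w, hw, x, -, ⟨-, hxT, k, v, v', hk, hP, hv, hv', hweq⟩, hqx⟩ := hqE
    have hxG : G x := hG.up q x hq ⟨hxT.1.1, hxT.1.2.1, fun c hc => lv.C_sub c (hxT.1.2.2 c hc)⟩ hqx
    have h1 := pos_mem lv hG hτ hxG hP
    have h2 := dci_tr lv hG hT hτ hsτ hxG hxT hv
    have h3 := dci_tr lv hG hT hσ hsσ hxG hxT hv'
    have h4 : sg k (evl S G τ) (evl S G σ) = w := by
      unfold sg
      rw [h2, h3, hweq]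
    have h5 : k ∈ {k | k ∈ evl S G τ ∧ sg k (evl S G τ) (evl S G σ) ∈ Gm d} := ⟨h1, by rw [h4]; exact hw⟩
    have := hK h5
    omega
  · -- no extension of `q` is below a bad condition
    obtain ⟨p0, hp0, hp0T, hp0a, hp0b⟩ := dirD lv hG hT hpa hpaT hpb hpbT
    obtain ⟨r, hr, hrq, hrp0⟩ := hG.dir q p0 hq hp0
    have hrc := hG.cond r hr
    have hpT : CT S T (res T r) := ⟨res_cond hT hrc, res_inT⟩
    have hlow : Le Gm (low S' (res T r)) p0 := by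
      have := low_mono (S' := S') (res_mono hT hrp0)
      rwa [res_self hp0T.1 hp0T.2, low_self hp0T.1] at this
    obtain ⟨x, w, hxT, hxB, hw, hxa⟩ := codeStep hGm lv hTU hσ hτ (K + 1) hpT hpaT hpbT
      (le_trans hp0T.1 hlow hp0a) (le_trans hp0T.1 hlow hp0b) ha hb
    have hac : IsCond S (adF x (fs (res T r))) := adF_cond hxT.1 lv.C_sub hpT.1.2.2
    have haT : InT T (adF x (fs (res T r))) := hxT.2
    have hle : ht r ≤ ht (adF x (fs (res T r))) := hxa.2.1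
    have hj := jnc_cond hac hrc hle
    refine hqE (jnc (adF x (fs (res T r))) r) (cond_vl hj) hj ?_ ⟨w, hw, x, ?_, ⟨?_, hxT, hxB⟩, ?_⟩
    · exact le_trans hrc (jnc_le_right hT hac haT hrc hxa) hrq
    · exact ⟨PShp.vl_all _ _, fun c hc => Good.cu c (lv.C_sub c (hxT.1.2.2 c hc))⟩
    · exact ⟨PShp.vl_all _ _, cond_vl hxT.1⟩
    · exact le_trans hac (jnc_le_left hac haT hrc hxa) (adF_le_self hxT.1)

end

end Pool.Agent.Lib.Z2.Un
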