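import Pool.Agent.Lib.Z2.Un.U

/-!
# The pairs of the nodes are certified, the generic reals are infinite and distinct (MP_8dbd20_lc, section 7)
-/

set_option linter.unusedVariables false

namespace Pool.Agent.Lib.Z2.Un

open Pool.Agent.Lib.Z2

/-- add the number `k` at the node `s` -/
def adk (x : Cond) (s : Node) (k : ℕ) : Cond := ((nds x, k + 1, (s, k) :: bts x), fs x)

/-- a primitive recursive infinite set of numbers is not contained in a finite union of sets `Gm c` -/
def MG0 (S : Str) (Gm : Set ℕ → Set ℕ) : Prop :=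
  ∀ F : List (Set ℕ), (∀ c ∈ F, c ∈ S.C) → ∀ P : ℕ → Prop, PrimrecPred P → (∀ L, ∃ e, P e ∧ L ≤ e) →
    ∃ e, P e ∧ ∀ c ∈ F, e ∉ Gm c

section
variable {S S' : Str} {Gm : Set ℕ → Set ℕ} {d T σ τ : Set ℕ} {G : Cond → Prop} {x x' p q r : Cond}

theorem adk_cond (hx : IsCond S x) {s : Node} (hs : s ∈ nds x) {k : ℕ} (hk : ht x ≤ k) : IsCond S (adk x s k) := by
  refine ⟨hx.1, ?_, hx.2.2⟩
  intro y hy
  rcases List.mem_cons.1 hy with h | h
  · subst h
    exact ⟨hs, Nat.lt_succ_self k⟩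
  · have := hx.2.1 y h
    refine ⟨this.1, ?_⟩
    show y.2 < k + 1
    omega

theorem mem_bts_adk {s : Node} {k : ℕ} {y : Node × ℕ} : y ∈ bts (adk x s k) ↔ y = (s, k) ∨ y ∈ bts x :=
  List.mem_cons

theorem adk_le (hx : IsCond S x) {s : Node} (hs : s ∈ nds x) {k : ℕ} (hk : ht x ≤ k)
    (hG : ∀ c ∈ fs x, sg k (ub x s) (ubp x s) ∉ Gm c) : Le Gm (adk x s k) x := by
  have hk1 : ht x ≤ ht (adk x s k) := by
    show ht x ≤ k + 1
    omega
  refine ⟨fun t h => h, hk1, ?_, fun c h => h, ?_⟩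
  · intro t ht j hj
    rw [mem_bts_adk]
    constructor
    · rintro (h | h)
      · have : j = k := (Prod.ext_iff.1 h).2
        omega
      · exact h
    · exact Or.inr
  · intro t ht j hj hj' c hc
    rcases mem_bts_adk.1 hj with h | h
    · obtain ⟨rfl, rfl⟩ := Prod.ext_iff.1 h
      have h1 : sg j (ub (adk x t j) t) (ubp (adk x t j) t) = sg j (ub x t) (ubp x t) := by
        apply sg_congr
        · intro i hi
          show (t, i) ∈ bts (adk x t j) ↔ (t, i) ∈ bts x
          rw [mem_bts_adk]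
          constructor
          · rintro (h | h)
            · have : i = j := (Prod.ext_iff.1 h).2
              omega
            · exact h
          · exact Or.inr
        · intro i hi
          show (t ≠ [] ∧ (t.tail, i) ∈ bts (adk x t j)) ↔ (t ≠ [] ∧ (t.tail, i) ∈ bts x)
          rw [mem_bts_adk]
          constructor
          · rintro ⟨h0, h | h⟩
            · have : i = j := (Prod.ext_iff.1 h).2
              omega
            · exact ⟨h0, h⟩
          · rintro ⟨h0, h⟩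
            exact ⟨h0, Or.inr h⟩
      have h2 := hG c hc
      rw [← h1] at h2
      exact h2
    · have := (hx.2.1 _ h).2
      simp only at this
      omega

/-- the codes with fixed finite sets -/
theorem exists_k (h0 : MG0 S Gm) (hx : IsCond S x) (s : Node) (K : ℕ) :
    ∃ k, K ≤ k ∧ ht x ≤ k ∧ ∀ c ∈ fs x, sg k (ub x s) (ubp x s) ∉ Gm c := by
  classical
  obtain ⟨a, ha⟩ : ∃ a : ℕ, a = Encodable.encode (tr (ub x s) (ht x)) := ⟨_, rfl⟩
  obtain ⟨b, hb⟩ : ∃ b : ℕ, b = Encodable.encode (tr (ubp x s) (ht x)) := ⟨_, rfl⟩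
  have key : ∀ k, ht x ≤ k → sg k (ub x s) (ubp x s) = Nat.pair k (Nat.pair a b) := by
    intro k hk
    have h1 : tr (ub x s) k = tr (ub x s) (ht x) := by
      obtain ⟨j, rfl⟩ := Nat.exists_eq_add_of_le hk
      unfold tr
      rw [List.range_add, List.filter_append]
      have : ((List.range j).map (fun i => ht x + i)).filter (fun i => decide (i ∈ ub x s)) = [] := by
        rw [List.filter_eq_nil_iff]
        intro i hi
        obtain ⟨i', -, rfl⟩ := List.mem_map.1 hi
        simp only [decide_eq_true_eq]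
        intro h
        have := (hx.2.1 _ h).2
        simp only at this
        omega
      rw [this, List.append_nil]
    have h2 : tr (ubp x s) k = tr (ubp x s) (ht x) := by
      obtain ⟨j, rfl⟩ := Nat.exists_eq_add_of_le hk
      unfold tr
      rw [List.range_add, List.filter_append]
      have : ((List.range j).map (fun i => ht x + i)).filter (fun i => decide (i ∈ ubp x s)) = [] := by
        rw [List.filter_eq_nil_iff]
        intro i hi
        obtain ⟨i', -, rfl⟩ := List.mem_map.1 hi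
        simp only [decide_eq_true_eq]
        intro h
        have := (hx.2.1 _ h.2).2
        simp only at this
        omega
      rw [this, List.append_nil]
    unfold sg
    rw [h1, h2, ha, hb]
  obtain ⟨e, ⟨k, hk, he⟩, hF⟩ := h0 (fs x) hx.2.2
    (fun e => max K (ht x) ≤ e.unpair.1 ∧ e.unpair.2 = Nat.pair a b) (by
    have h1 : PrimrecPred (fun e : ℕ => max K (ht x) ≤ e.unpair.1) :=
      Primrec.nat_le.comp (Primrec.const _) prim_left
    have h2 : PrimrecPred (fun e : ℕ => e.unpair.2 = Nat.pair a b) :=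
      Primrec.eq.comp prim_right (Primrec.const _)
    exact h1.and h2) (by
    intro L
    refine ⟨Nat.pair (max L (max K (ht x))) (Nat.pair a b), ?_, ?_⟩
    · simp only [Nat.unpair_pair]
      exact ⟨le_max_right _ _, trivial⟩
    · exact _root_.le_trans (le_max_left _ _) (Nat.left_le_pair _ _)) |> fun ⟨e, ⟨h1, h2⟩, h3⟩ =>
      (⟨e, ⟨e.unpair.1, h1, by rw [← h2]; exact (Nat.pair_unpair e).symm⟩, h3⟩ :
        ∃ e, (∃ k, max K (ht x) ≤ k ∧ e = Nat.pair k (Nat.pair a b)) ∧ ∀ c ∈ fs x, e ∉ Gm c)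
  refine ⟨k, _root_.le_trans (le_max_left _ _) hk, _root_.le_trans (le_max_right _ _) hk, ?_⟩
  intro c hc
  rw [key k (_root_.le_trans (le_max_right _ _) hk), ← he]
  exact hF c hc

/-- density of the conditions with a new element at `s` not at `t` -/
theorem gen_new [Good S] (h0 : MG0 S Gm) (hG : Gen S Gm G) (s t : Node) (hst : s ≠ t) (K : ℕ) :
    ∃ k, K ≤ k ∧ k ∈ gen G s ∧ k ∉ gen G t := by
  obtain ⟨q, hq, hsq, htq, k, hk, hkq, h1, h2⟩ := hG.meet
    (fun q => s ∈ nds q ∧ t ∈ nds q ∧ ∃ k : ℕ, K ≤ k ∧ k < ht q ∧ (s, k) ∈ bts q ∧ (t, k) ∉ bts q) (by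
    refine Dfn.and (Dfn.pmem (DF.constN s) (DF.nds DF.id)) (Dfn.and (Dfn.pmem (DF.constN t) (DF.nds DF.id)) ?_)
    refine Dfn.exN (P := fun (q : Cond) (k : ℕ) => K ≤ k ∧ k < ht q ∧ (s, k) ∈ bts q ∧ (t, k) ∉ bts q) ?_
    refine Dfn.and (Dfn.le (DF.constN K) Smp.id.snd.df) (Dfn.and (Dfn.lt Smp.id.snd.df (DF.ht Smp.id.fst.df)) ?_)
    exact Dfn.and (Dfn.ub Smp.id.fst.df (DF.constN s) Smp.id.snd.df)
      (Dfn.not (Dfn.ub Smp.id.fst.df (DF.constN t) Smp.id.snd.df))) (by
    intro p hp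
    have h1 := adn_cond hp s
    have h2 := adn_cond h1 t
    have hs : s ∈ nds (adn (adn p s) t) := mem_nds_adn.2 (Or.inl (mem_nds_adn.2 (Or.inr (List.suffix_refl s))))
    have ht' : t ∈ nds (adn (adn p s) t) := mem_nds_adn.2 (Or.inr (List.suffix_refl t))
    obtain ⟨k, hk, hk', hc⟩ := exists_k h0 h2 s K
    refine ⟨adk (adn (adn p s) t) s k, adk_cond h2 hs hk', ?_, hs, ht', k, hk, Nat.lt_succ_self k, ?_, ?_⟩
    · exact le_trans h2 (adk_le h2 hs hk' hc) (le_trans h1 (adn_le h1 t) (adn_le hp s))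
    · exact mem_bts_adk.2 (Or.inl rfl)
    · rw [mem_bts_adk]
      rintro (h | h)
      · exact hst (Prod.ext_iff.1 h).1.symm
      · have := (h2.2.1 _ h).2
        simp only at this
        omega)
  exact ⟨k, hk, (mem_gen hG hq hsq hkq).2 h1, fun h => h2 ((mem_gen hG hq htq hkq).1 h)⟩

theorem gen_inf [Good S] (h0 : MG0 S Gm) (hG : Gen S Gm G) (s : Node) : (gen G s).Infinite := by
  intro h
  obtain ⟨K, hK⟩ := h.bddAbove
  obtain ⟨k, hk, h1, -⟩ := gen_new h0 hG s (0 :: s) (List.cons_ne_self 0 s).symm (K + 1)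
  have := hK h1
  omega

theorem gen_inj [Good S] (h0 : MG0 S Gm) (hG : Gen S Gm G) {s t : Node} (h : gen G s = gen G t) : s = t := by
  by_contra hc
  obtain ⟨k, hk, h1, h2⟩ := gen_new h0 hG s t hc 0
  rw [h] at h1
  exact h2 h1

/-- if the pair of `t` continues the pair of `s`, then `t` is a child of `s` -/
theorem gp_eq_gen [Good S] (h0 : MG0 S Gm) (hG : Gen S Gm G) {s t : Node} (h : gp G t = gen G s) :
    ∃ a, t = a :: s := by
  rcases t with _ | ⟨a, t⟩
  · exfalso
    have h1 : gen G s = ∅ := by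
      rw [← h]; ext k; simp [gp]
    exact (gen_inf h0 hG s) (by rw [h1]; exact Set.finite_empty)
  · have h1 : gp G (a :: t) = gen G t := by
      ext k; simp [gp]
    rw [h1] at h
    exact ⟨a, by rw [gen_inj h0 hG h]⟩

/-- THE PAIRS OF THE NODES ARE CERTIFIED -/
theorem edge [Good S] (pm : S.Pm = S.U) (hG : Gen S Gm G) (s : Node) {c : Set ℕ} (hc : c ∈ S.C) :
    {k | k ∈ gen G s ∧ sg k (gen G s) (gp G s) ∈ Gm c}.Finite := by
  have hcp : c ∈ S.Pm := by rw [pm]; exact Good.cu c hc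
  obtain ⟨p, hp, hsp, hcf⟩ := hG.meet (fun q => s ∈ nds q ∧ c ∈ fs q)
    (Dfn.and (Dfn.pmem (DF.constN s) (DF.nds DF.id)) (Dfn.lmem (DF.constR hcp) (DF.fs DF.id))) (by
    intro p hp
    have h1 := adn_cond hp s
    refine ⟨adF (adn p s) [c], adF_cond h1 (fun c h => h) (by simpa using hc),
      le_trans h1 (adF_le_self h1) (adn_le hp s), mem_nds_adn.2 (Or.inr (List.suffix_refl s)),
      mem_adF.2 (Or.inr (by simp))⟩)
  refine (Set.finite_lt_nat (ht p)).subset ?_
  rintro k ⟨hk, hk2⟩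
  simp only [Set.mem_ofPred_eq]
  by_contra hlt
  obtain ⟨q, hq, hkq⟩ := hk
  obtain ⟨r, hr, hrp, hrq⟩ := hG.dir p q hp hq
  have hqc := hG.cond q hq
  have hrc := hG.cond r hr
  have h1 : (s, k) ∈ bts r := (hrq.2.2.1 s (hqc.2.1 _ hkq).1 k (hqc.2.1 _ hkq).2).2 hkq
  have h2 : k < ht r := (hrc.2.1 _ h1).2
  have h3 : s ∈ nds r := (hrc.2.1 _ h1).1
  have h4 := hrp.2.2.2.2 s hsp k h1 (not_lt.1 hlt) c hcf
  have h5 : sg k (gen G s) (gp G s) = sg k (ub r s) (ubp r s) :=
    sg_congr (fun j hj => mem_gen hG hr h3 (by omega)) (fun j hj => mem_gp hG hr h3 (by omega))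
  rw [h5] at hk2
  exact h4 hk2

end

end Pool.Agent.Lib.Z2.Un
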