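import Pool.Agent.Lib.Z2.Fo.Defs

/-!
# Definability of the basic relations of the forcing, over every good structure (MP_8dbd20_lc)

The only hypothesis on `Gm` is `Dfn S (fun x : ℕ × Set ℕ => x.1 ∈ Gm x.2)`.
-/

namespace Pool.Agent.Lib.Z2

section
variable {S : Str} {α β : Type} [Shp α] [Shp β]

/-- primitive recursive sets belong to every good structure -/
theorem Good.prim_mem (S : Str) [Good S] {p : ℕ → Prop} (hp : PrimrecPred p) : {n | p n} ∈ S.U := by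
  classical
  have h1 : (Set.univ : Set ℕ) ∈ S.U := by
    have := Good.uc _ (Good.ue S)
    simpa using this
  have h2 := Good.prf_mem S (f := fun n => if p n then some 0 else none)
    (Primrec.ite hp (Primrec.const _) (Primrec.const _)) h1
  have h3 : prf (fun n => if p n then some 0 else none) Set.univ = {n | p n} := by
    ext n
    simp [prf]
  rwa [h3] at h2

theorem mem_tr {z : Set ℕ} {k j : ℕ} : j ∈ tr z k ↔ j < k ∧ j ∈ z := by
  simp [tr]

theorem tr_congr {z z' : Set ℕ} {k : ℕ} (h : ∀ j < k, (j ∈ z ↔ j ∈ z')) : tr z k = tr z' k := by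
  unfold tr
  apply List.filter_congr
  intro j hj
  simp [h j (List.mem_range.1 hj)]

theorem tr_inj {z z' : Set ℕ} {k : ℕ} (h : tr z k = tr z' k) : ∀ j < k, (j ∈ z ↔ j ∈ z') := by
  intro j hj
  have h1 := (mem_tr (z := z) (k := k) (j := j))
  have h2 := (mem_tr (z := z') (k := k) (j := j))
  rw [h] at h1
  constructor
  · intro hz
    exact (h2.1 (h1.2 ⟨hj, hz⟩)).2
  · intro hz
    exact (h1.1 (h2.2 ⟨hj, hz⟩)).2

theorem sg_inj {k k' : ℕ} {z y z' y' : Set ℕ} (h : sg k z y = sg k' z' y') :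
    k = k' ∧ (∀ j < k, (j ∈ z ↔ j ∈ z')) ∧ ∀ j < k, (j ∈ y ↔ j ∈ y') := by
  unfold sg at h
  obtain ⟨h1, h2⟩ := Nat.pair_eq_pair.1 h
  obtain ⟨h3, h4⟩ := Nat.pair_eq_pair.1 h2
  subst h1
  exact ⟨rfl, tr_inj (Encodable.encode_injective h3), tr_inj (Encodable.encode_injective h4)⟩

theorem sg_congr {k : ℕ} {z y z' y' : Set ℕ} (h : ∀ j < k, (j ∈ z ↔ j ∈ z')) (h' : ∀ j < k, (j ∈ y ↔ j ∈ y')) :
    sg k z y = sg k z' y' := by
  unfold sg
  rw [tr_congr h, tr_congr h']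

theorem le_sg (k : ℕ) (z y : Set ℕ) : k ≤ sg k z y := Nat.left_le_pair _ _

theorem primrec_mem {T : Type} [Primcodable T] : PrimrecRel (fun (t : T) (l : List T) => t ∈ l) := by
  classical
  have h := PrimrecRel.exists_mem_list (R := fun (a : T) (t : T) => a = t) Primrec.eq
  exact (h.comp Primrec.snd Primrec.fst).of_eq (fun x => by simp)

theorem tr_eq_iff (z : Set ℕ) (k : ℕ) (l : List ℕ) :
    tr z k = l ↔ l = (List.range k).filter (fun j => decide (j ∈ l)) ∧ ∀ j, j < k → (j ∈ l ↔ j ∈ z) := by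
  constructor
  · rintro rfl
    refine ⟨?_, fun j hj => by rw [mem_tr]; simp [hj]⟩
    conv_lhs => unfold tr
    apply List.filter_congr
    intro j hj
    have := List.mem_range.1 hj
    simp [mem_tr, this]
  · rintro ⟨h1, h2⟩
    rw [h1]
    unfold tr
    apply List.filter_congr
    intro j hj
    simp [h2 j (List.mem_range.1 hj)]

theorem DF.tr [Good S] {f : α → Set ℕ} {g : α → ℕ} (hf : DF S f) (hg : DF S g) :
    DF S (fun a => tr (f a) (g a)) := by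
  refine DF.comp₂ (F := fun (z : Set ℕ) (k : ℕ) => Z2.tr z k) ?_ hf hg
  refine ⟨fun _ _ => PShp.vl_all _ _, ?_⟩
  have h1 : Dfn S (fun x : (Set ℕ × ℕ) × List ℕ =>
      x.2 = (List.range x.1.2).filter (fun j => decide (j ∈ x.2))) := by
    refine Dfn.eq Smp.id.snd.df ?_
    refine DF.prim₂ (F := fun (k : ℕ) (l : List ℕ) => (List.range k).filter (fun j => decide (j ∈ l))) ?_
      Smp.id.fst.snd.df Smp.id.snd.df
    have h2 := (primrec_mem (T := ℕ)).listFilter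
    exact h2.comp (Primrec.list_range.comp Primrec.fst) Primrec.snd
  have h3 : Dfn S (fun x : (Set ℕ × ℕ) × List ℕ => ∀ j : ℕ, j < x.1.2 → (j ∈ x.2 ↔ j ∈ x.1.1)) := by
    refine Dfn.allN (P := fun (x : (Set ℕ × ℕ) × List ℕ) (j : ℕ) => j < x.1.2 → (j ∈ x.2 ↔ j ∈ x.1.1)) ?_
    refine Dfn.imp (Dfn.lt Smp.id.snd.df Smp.id.fst.fst.snd.df) (Dfn.iff ?_ ?_)
    · exact Dfn.pmem Smp.id.snd.df Smp.id.fst.snd.df
    · exact Dfn.mem Smp.id.snd.df Smp.id.fst.fst.fst.df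
  exact (h1.and h3).congr (fun x _ => tr_eq_iff _ _ _)

theorem DF.sg [Good S] {f : α → ℕ} {g h : α → Set ℕ} (hf : DF S f) (hg : DF S g) (hh : DF S h) :
    DF S (fun a => sg (f a) (g a) (h a)) :=
  DF.natPair hf (DF.natPair (DF.enc (DF.tr hg hf)) (DF.enc (DF.tr hh hf)))

theorem DF.nds [Good S] {f : α → Cond} (hf : DF S f) : DF S (fun a => nds (f a)) := DF.fst (DF.fst hf)
theorem DF.ht [Good S] {f : α → Cond} (hf : DF S f) : DF S (fun a => ht (f a)) := DF.fst (DF.snd (DF.fst hf))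
theorem DF.bts [Good S] {f : α → Cond} (hf : DF S f) : DF S (fun a => bts (f a)) := DF.snd (DF.snd (DF.fst hf))
theorem DF.fs [Good S] {f : α → Cond} (hf : DF S f) : DF S (fun a => fs (f a)) := DF.snd hf

theorem ub_mem [Good S] (p : Cond) (s : Node) : ub p s ∈ S.U := by
  refine Good.prim_mem S (p := fun k => (s, k) ∈ Z2.bts p) ?_
  exact (primrec_mem (T := Node × ℕ)).comp (Primrec.pair (Primrec.const s) Primrec.id) (Primrec.const (Z2.bts p))

theorem ubp_mem [Good S] (p : Cond) (s : Node) : ubp p s ∈ S.U := by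
  by_cases hs : s = []
  · have : ubp p s = ∅ := by
      ext k; simp [ubp, hs]
    rw [this]; exact Good.ue S
  · have : ubp p s = ub p s.tail := by
      ext k; simp [ubp, ub, hs]
    rw [this]; exact ub_mem p _

theorem Dfn.ub [Good S] {f : α → Cond} {g : α → Node} {h : α → ℕ} (hf : DF S f) (hg : DF S g) (hh : DF S h) :
    Dfn S (fun a => (g a, h a) ∈ bts (f a)) := Dfn.pmem (DF.pair hg hh) (DF.bts hf)

theorem DF.ub [Good S] {f : α → Cond} {g : α → Node} (hf : DF S f) (hg : DF S g) :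
    DF S (fun a => ub (f a) (g a)) := by
  refine DF.set (fun a _ => ub_mem _ _) ?_
  exact Dfn.ub (hf.comp Smp.id.fst.df) (hg.comp Smp.id.fst.df) Smp.id.snd.df

theorem DF.tail [Good S] {g : α → Node} (hg : DF S g) : DF S (fun a => (g a).tail) :=
  DF.prim (F := fun s : Node => s.tail) Primrec.list_tail hg

theorem DF.ubp [Good S] {f : α → Cond} {g : α → Node} (hf : DF S f) (hg : DF S g) :
    DF S (fun a => ubp (f a) (g a)) := by
  refine DF.set (fun a _ => ubp_mem _ _) ?_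
  refine Dfn.and (Dfn.not (Dfn.eq (hg.comp Smp.id.fst.df) (DF.constN ([] : Node)))) ?_
  exact Dfn.ub (hf.comp Smp.id.fst.df) (DF.tail (hg.comp Smp.id.fst.df)) Smp.id.snd.df

theorem Dfn.inn [Good S] {f : α → Set ℕ} {g : α → Node} (hf : DF S f) (hg : DF S g) :
    Dfn S (fun a => inn (f a) (g a)) := Dfn.mem (DF.enc hg) hf

theorem Dfn.inT [Good S] {f : α → Set ℕ} {g : α → Cond} (hf : DF S f) (hg : DF S g) :
    Dfn S (fun a => InT (f a) (g a)) := by
  unfold InT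
  exact Dfn.allP (P := fun a s => Z2.inn (f a) s) (DF.nds hg) (Dfn.inn (hf.comp Smp.id.fst.df) Smp.id.snd.df)

theorem Dfn.isCond [Good S] {f : α → Cond} (hf : DF S f) : Dfn S (fun a => IsCond S (f a)) := by
  unfold IsCond
  refine Dfn.and ?_ (Dfn.and ?_ ?_)
  · refine Dfn.allP (P := fun a s => s.tail ∈ Z2.nds (f a)) (DF.nds hf) ?_
    exact Dfn.pmem (DF.tail Smp.id.snd.df) (DF.nds (hf.comp Smp.id.fst.df))
  · refine Dfn.allP (P := fun a (x : Node × ℕ) => x.1 ∈ Z2.nds (f a) ∧ x.2 < Z2.ht (f a)) (DF.bts hf) ?_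
    refine Dfn.and (Dfn.pmem (DF.fst Smp.id.snd.df) (DF.nds (hf.comp Smp.id.fst.df))) ?_
    exact Dfn.lt (DF.snd Smp.id.snd.df) (DF.ht (hf.comp Smp.id.fst.df))
  · exact Dfn.allL (P := fun a c => c ∈ S.C) (DF.fs hf) (Dfn.isC Smp.id.snd.df)

theorem Dfn.le' [Good S] {Gm : Set ℕ → Set ℕ} (hG : Dfn S (fun x : ℕ × Set ℕ => x.1 ∈ Gm x.2))
    {f g : α → Cond} (hf : DF S f) (hg : DF S g) : Dfn S (fun a => Le Gm (f a) (g a)) := by
  unfold Le
  refine Dfn.and ?_ (Dfn.and ?_ (Dfn.and ?_ (Dfn.and ?_ ?_)))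
  · refine Dfn.allP (P := fun a s => s ∈ Z2.nds (f a)) (DF.nds hg) ?_
    exact Dfn.pmem Smp.id.snd.df (DF.nds (hf.comp Smp.id.fst.df))
  · exact Dfn.le (DF.ht hg) (DF.ht hf)
  · refine Dfn.allP (P := fun a s => ∀ k, k < Z2.ht (g a) → ((s, k) ∈ Z2.bts (f a) ↔ (s, k) ∈ Z2.bts (g a)))
      (DF.nds hg) ?_
    refine Dfn.allN (P := fun (x : α × Node) (k : ℕ) =>
      k < Z2.ht (g x.1) → ((x.2, k) ∈ Z2.bts (f x.1) ↔ (x.2, k) ∈ Z2.bts (g x.1))) ?_
    have hf' := hf.comp (f := fun x : (α × Node) × ℕ => x.1.1) Smp.id.fst.fst.df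
    have hg' := hg.comp (f := fun x : (α × Node) × ℕ => x.1.1) Smp.id.fst.fst.df
    exact Dfn.imp (Dfn.lt Smp.id.snd.df (DF.ht hg'))
      (Dfn.iff (Dfn.ub hf' Smp.id.fst.snd.df Smp.id.snd.df) (Dfn.ub hg' Smp.id.fst.snd.df Smp.id.snd.df))
  · refine Dfn.allL (P := fun a c => c ∈ Z2.fs (f a)) (DF.fs hg) ?_
    exact Dfn.lmem Smp.id.snd.df (DF.fs (hf.comp Smp.id.fst.df))
  · refine Dfn.allP (P := fun a s => ∀ k, (s, k) ∈ Z2.bts (f a) → Z2.ht (g a) ≤ k → ∀ c ∈ Z2.fs (g a),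
      Z2.sg k (Z2.ub (f a) s) (Z2.ubp (f a) s) ∉ Gm c) (DF.nds hg) ?_
    refine Dfn.allN (P := fun (x : α × Node) (k : ℕ) => (x.2, k) ∈ Z2.bts (f x.1) → Z2.ht (g x.1) ≤ k →
      ∀ c ∈ Z2.fs (g x.1), Z2.sg k (Z2.ub (f x.1) x.2) (Z2.ubp (f x.1) x.2) ∉ Gm c) ?_
    have hf' := hf.comp (f := fun x : (α × Node) × ℕ => x.1.1) Smp.id.fst.fst.df
    have hg' := hg.comp (f := fun x : (α × Node) × ℕ => x.1.1) Smp.id.fst.fst.df
    refine Dfn.imp (Dfn.ub hf' Smp.id.fst.snd.df Smp.id.snd.df) (Dfn.imp (Dfn.le (DF.ht hg') Smp.id.snd.df) ?_)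
    refine Dfn.allL (P := fun (x : (α × Node) × ℕ) c => Z2.sg x.2 (Z2.ub (f x.1.1) x.1.2) (Z2.ubp (f x.1.1) x.1.2) ∉ Gm c)
      (DF.fs hg') ?_
    refine Dfn.not ?_
    have hf2 := hf.comp (f := fun x : ((α × Node) × ℕ) × Set ℕ => x.1.1.1) Smp.id.fst.fst.fst.df
    refine Dfn.comp₂ (R := fun (n : ℕ) (c : Set ℕ) => n ∈ Gm c) hG ?_ Smp.id.snd.df
    exact DF.sg Smp.id.fst.snd.df (DF.ub hf2 Smp.id.fst.fst.snd.df) (DF.ubp hf2 Smp.id.fst.fst.snd.df)

theorem DF.cdc [Good S] {f : α → Cond} (hf : DF S f) : DF S (fun a => cdc (f a)) := by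
  unfold Z2.cdc
  refine DF.jn ?_ (DF.re hf)
  refine DF.set (fun a _ => ?_) ?_
  · refine Good.prim_mem S (p := fun k => k = Shp.num (f a)) ?_
    exact Primrec.eq.comp Primrec.id (Primrec.const _)
  · exact Dfn.eq Smp.id.snd.df (DF.num (hf.comp Smp.id.fst.df))

theorem Dfn.ent [Good S] {f : α → Set ℕ} {g : α → ℕ} {h : α → Cond} (hf : DF S f) (hg : DF S g) (hh : DF S h) :
    Dfn S (fun a => Ent S (f a) (g a) (h a)) := by
  unfold Ent
  refine Dfn.and (Dfn.isCond hh) ?_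
  refine Dfn.exN (P := fun (a : α) (i : ℕ) => Z2.sec (f a) (Nat.pair (g a) i) = Z2.cdc (h a)) ?_
  refine Dfn.eq (DF.sec (hf.comp Smp.id.fst.df) (DF.natPair (hg.comp Smp.id.fst.df) Smp.id.snd.df)) ?_
  exact DF.cdc (hh.comp Smp.id.fst.df)

/-- constants: lists of parameters -/
theorem DF.constL [Good S] {L : List (Set ℕ)} (hL : ∀ X ∈ L, X ∈ S.Pm) : DF S (fun _ : α => L) := by
  induction L with
  | nil => exact DF.nil
  | cons X L ih => exact DF.cons (DF.constR (hL X (by simp))) (ih (fun Y hY => hL Y (by simp [hY])))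

/-- constants: conditions -/
theorem DF.constCond [Good S] {p : Cond} (hp : ∀ X ∈ Z2.fs p, X ∈ S.Pm) : DF S (fun _ : α => p) :=
  DF.pair (f := fun _ : α => p.1) (g := fun _ : α => p.2) (DF.constN p.1) (DF.constL hp)

theorem cond_vl [Good S] {p : Cond} (hp : IsCond S p) : vl S.U p :=
  ⟨PShp.vl_all _ _, fun c hc => Good.cu c (hp.2.2 c hc)⟩

theorem cdc_inj {p q : Cond} (h : cdc p = cdc q) : p = q := by
  obtain ⟨h1, h2⟩ := jn_inj h
  exact Shp.inj _ _ (Set.singleton_injective h1) h2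

end

end Pool.Agent.Lib.Z2
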