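import Pool.Agent.Lib.Z2.Un.G

/-!
# Deciding the values of names by conditions of the low part (MP_8dbd20_lc, section 7)
-/

set_option linter.unusedVariables false

namespace Pool.Agent.Lib.Z2.Un

open Pool.Agent.Lib.Z2

/-- `x` puts `n` in the real named `σ` -/
def Pos (S : Str) (Gm : Set ℕ → Set ℕ) (σ : Set ℕ) (n : ℕ) (x : Cond) : Prop := ∃ w, Ent S σ n w ∧ Le Gm x w

/-- no condition on `T` below `x` puts `n` in the real named `σ` -/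
def Neg (S : Str) (T : Set ℕ) (Gm : Set ℕ → Set ℕ) (σ : Set ℕ) (n : ℕ) (x : Cond) : Prop :=
  ∀ x', CT S T x' → Le Gm x' x → ¬ Pos S Gm σ n x'

/-- `x` decides the part below `k` of the real named `σ` to be the list `v` -/
def Dci (S : Str) (T : Set ℕ) (Gm : Set ℕ → Set ℕ) (σ : Set ℕ) (k : ℕ) (v : List ℕ) (x : Cond) : Prop :=
  v = (List.range k).filter (fun j => decide (j ∈ v)) ∧
    ∀ i < k, (i ∈ v ∧ Pos S Gm σ i x) ∨ (i ∉ v ∧ Neg S T Gm σ i x)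

section
variable {S S' : Str} {Gm : Set ℕ → Set ℕ} {d T σ τ : Set ℕ} {G : Cond → Prop} {x x' p q : Cond}

theorem Pos.mono {n : ℕ} (hx : IsCond S x) (h : Pos S Gm σ n x) (h' : Le Gm x' x) : Pos S Gm σ n x' := by
  obtain ⟨w, hw, hl⟩ := h
  exact ⟨w, hw, le_trans hx h' hl⟩

theorem Neg.mono {n : ℕ} (hx' : IsCond S x') (h : Neg S T Gm σ n x) (h' : Le Gm x' x) : Neg S T Gm σ n x' :=
  fun y hy hl => h y hy (le_trans hx' hl h')

theorem Dci.mono {k : ℕ} {v : List ℕ} (hx : IsCond S x) (hx' : IsCond S x') (h : Dci S T Gm σ k v x)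
    (h' : Le Gm x' x) : Dci S T Gm σ k v x' :=
  ⟨h.1, fun i hi => (h.2 i hi).imp (fun h => ⟨h.1, h.2.mono hx h'⟩) (fun h => ⟨h.1, h.2.mono hx' h'⟩)⟩

/-- every number can be decided -/
theorem dec1 (n : ℕ) (hx : CT S T x) : ∃ x', CT S T x' ∧ Le Gm x' x ∧ (Pos S Gm σ n x' ∨ Neg S T Gm σ n x') := by
  by_cases h : ∃ x', CT S T x' ∧ Le Gm x' x ∧ Pos S Gm σ n x'
  · obtain ⟨x', h1, h2, h3⟩ := h
    exact ⟨x', h1, h2, Or.inl h3⟩
  · refine ⟨x, hx, le_refl hx.1, Or.inr ?_⟩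
    intro x' h1 h2 h3
    exact h ⟨x', h1, h2, h3⟩

theorem decs (k : ℕ) (hx : CT S T x) : ∃ x' v, CT S T x' ∧ Le Gm x' x ∧ Dci S T Gm σ k v x' := by
  classical
  have h : ∃ x', CT S T x' ∧ Le Gm x' x ∧ ∀ i < k, (Pos S Gm σ i x' ∨ Neg S T Gm σ i x') := by
    induction k with
    | zero => exact ⟨x, hx, le_refl hx.1, fun i hi => absurd hi (by omega)⟩
    | succ k ih =>
      obtain ⟨x', h1, h2, h3⟩ := ih
      obtain ⟨y, h4, h5, h6⟩ := dec1 (S := S) (T := T) (Gm := Gm) (σ := σ) k h1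
      refine ⟨y, h4, le_trans h1.1 h5 h2, fun i hi => ?_⟩
      by_cases hik : i = k
      · subst hik; exact h6
      · exact (h3 i (by omega)).imp (fun h => h.mono h1.1 h5) (fun h => h.mono h4.1 h5)
  obtain ⟨x', h1, h2, h3⟩ := h
  refine ⟨x', tr {i | Pos S Gm σ i x'} k, h1, h2, ?_, ?_⟩
  · exact ((tr_eq_iff _ _ _).1 rfl).1
  · intro i hi
    by_cases hp : Pos S Gm σ i x'
    · exact Or.inl ⟨mem_tr.2 ⟨hi, hp⟩, hp⟩
    · exact Or.inr ⟨fun hc => hp (mem_tr.1 hc).2, (h3 i hi).resolve_left hp⟩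

/-- entries of a name in `S'.U` are conditions of the level -/
theorem ent_iff [Good S'] (lv : Lv S S' Gm d) (hσ : σ ∈ S'.U) (n : ℕ) (w : Cond) :
    Ent S σ n w ↔ Ent S' σ n w := by
  constructor
  · rintro ⟨hc, i, hi⟩
    refine ⟨⟨hc.1, hc.2.1, fun c hcw => (lv.cd c).2 ⟨hc.2.2 c hcw, ?_⟩⟩, i, hi⟩
    have h1 : cdc w ∈ S'.U := by
      rw [← hi]; exact Good.sec_mem S' hσ _
    have h2 : re w ∈ S'.U := by
      have := Good.rt_mem S' h1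
      rwa [cdc, rt_jn] at this
    have h3 : lre (fs w) ∈ S'.U := by
      have := Good.rt_mem S' h2
      have h4 : rt (re w) = lre (fs w) := rt_jn _ _
      rwa [h4] at this
    obtain ⟨j, hj, rfl⟩ := (mem_list_iff _ _).1 hcw
    exact Good.sec_mem S' h3 j
  · rintro ⟨hc, i, hi⟩
    exact ⟨⟨hc.1, hc.2.1, fun c hcw => lv.C_sub c (hc.2.2 c hcw)⟩, i, hi⟩

theorem pos_iff [Good S'] (lv : Lv S S' Gm d) (hσ : σ ∈ S'.U) (n : ℕ) (x : Cond) :
    Pos S Gm σ n x ↔ Pos S' Gm σ n x := by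
  unfold Pos
  simp only [ent_iff lv hσ]

/-- correctness of positive decisions -/
theorem pos_mem [Good S'] (lv : Lv S S' Gm d) (hG : Gen S Gm G) (hσ : σ ∈ S'.U) {n : ℕ} (hx : G x)
    (h : Pos S' Gm σ n x) : n ∈ evl S G σ := by
  obtain ⟨w, hw, hl⟩ := h
  have hw' := (ent_iff lv hσ n w).2 hw
  exact ⟨w, hw', hG.up x w hx hw'.1 hl⟩

/-- correctness of negative decisions -/
theorem neg_mem [Good S'] (lv : Lv S S' Gm d) (hG : Gen S Gm G) (hT : ∀ s : Node, inn T s → inn T s.tail)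
    (hσ : σ ∈ S'.U) (hs : Sup S σ T) {n : ℕ} (hx : G x) (hxT : CT S' T x)
    (h : Neg S' T Gm σ n x) : n ∉ evl S G σ := by
  rintro ⟨w, hw, hwG⟩
  have hw' := (ent_iff lv hσ n w).1 hw
  obtain ⟨r, hr, hrT, hrx, hrw⟩ := dirD lv hG hT hx hxT hwG ⟨hw'.1, hs n w hw⟩
  exact h r hrT hrx ⟨w, hw', hrw⟩

theorem dci_tr [Good S'] (lv : Lv S S' Gm d) (hG : Gen S Gm G) (hT : ∀ s : Node, inn T s → inn T s.tail)
    (hσ : σ ∈ S'.U) (hs : Sup S σ T) {k : ℕ} {v : List ℕ} (hx : G x) (hxT : CT S' T x)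
    (h : Dci S' T Gm σ k v x) : tr (evl S G σ) k = v := by
  rw [tr_eq_iff]
  refine ⟨h.1, fun j hj => ?_⟩
  rcases h.2 j hj with ⟨h1, h2⟩ | ⟨h1, h2⟩
  · exact ⟨fun _ => pos_mem lv hG hσ hx h2, fun _ => h1⟩
  · exact ⟨fun h => absurd h h1, fun h => absurd h (neg_mem lv hG hT hσ hs hx hxT h2)⟩

/-! ### definability -/

section
variable {α : Type} [Shp α]

theorem Pos.dfn [Good S] (hGm : Dfn S (fun x : ℕ × Set ℕ => x.1 ∈ Gm x.2)) (hσ : σ ∈ S.Pm) {f : α → ℕ} {g : α → Cond}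
    (hf : DF S f) (hg : DF S g) : Dfn S (fun a => Pos S Gm σ (f a) (g a)) := by
  have h : Dfn S (fun a => ∃ w : Cond, vl S.U w ∧ (Ent S σ (f a) w ∧ Le Gm (g a) w)) := by
    refine Dfn.exV (P := fun (a : α) (w : Cond) => Ent S σ (f a) w ∧ Le Gm (g a) w) ?_
    exact Dfn.and (Dfn.ent (DF.constR hσ) (hf.comp Smp.id.fst.df) Smp.id.snd.df)
      (Dfn.le' hGm (hg.comp Smp.id.fst.df) Smp.id.snd.df)
  refine h.congr (fun a _ => ?_)
  constructor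
  · rintro ⟨w, hw, hl⟩
    exact ⟨w, cond_vl hw.1, hw, hl⟩
  · rintro ⟨w, -, hw, hl⟩
    exact ⟨w, hw, hl⟩

theorem CT.dfn [Good S] (hT : T ∈ S.Pm) {g : α → Cond} (hg : DF S g) : Dfn S (fun a => CT S T (g a)) :=
  Dfn.and (Dfn.isCond hg) (Dfn.inT (DF.constR hT) hg)

theorem Neg.dfn [Good S] (hGm : Dfn S (fun x : ℕ × Set ℕ => x.1 ∈ Gm x.2)) (hT : T ∈ S.Pm) (hσ : σ ∈ S.Pm)
    {f : α → ℕ} {g : α → Cond}
    (hf : DF S f) (hg : DF S g) : Dfn S (fun a => Neg S T Gm σ (f a) (g a)) := by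
  have h : Dfn S (fun a => ∀ w : Cond, vl S.U w → (CT S T w → Le Gm w (g a) → ¬ Pos S Gm σ (f a) w)) := by
    refine Dfn.allV (P := fun (a : α) (w : Cond) => CT S T w → Le Gm w (g a) → ¬ Pos S Gm σ (f a) w) ?_
    refine Dfn.imp (CT.dfn hT Smp.id.snd.df) (Dfn.imp (Dfn.le' hGm Smp.id.snd.df (hg.comp Smp.id.fst.df)) ?_)
    exact Dfn.not (Pos.dfn hGm hσ (hf.comp Smp.id.fst.df) Smp.id.snd.df)
  refine h.congr (fun a _ => ?_)
  constructor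
  · intro h w _ hw
    exact h w hw
  · intro h w hw
    exact h w (cond_vl hw.1) hw

theorem Dci.dfn [Good S] (hGm : Dfn S (fun x : ℕ × Set ℕ => x.1 ∈ Gm x.2)) (hT : T ∈ S.Pm) (hσ : σ ∈ S.Pm)
    {f : α → ℕ} {v : α → List ℕ} {g : α → Cond}
    (hf : DF S f) (hv : DF S v) (hg : DF S g) : Dfn S (fun a => Dci S T Gm σ (f a) (v a) (g a)) := by
  unfold Dci
  refine Dfn.and (Dfn.eq hv ?_) ?_
  · refine DF.prim₂ (F := fun (k : ℕ) (l : List ℕ) => (List.range k).filter (fun j => decide (j ∈ l))) ?_ hf hv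
    have h2 := (primrec_mem (T := ℕ)).listFilter
    exact h2.comp (Primrec.list_range.comp Primrec.fst) Primrec.snd
  · refine Dfn.allN (P := fun (a : α) (i : ℕ) => i < f a → ((i ∈ v a ∧ Pos S Gm σ i (g a)) ∨ (i ∉ v a ∧ Neg S T Gm σ i (g a)))) ?_
    have hf' := hf.comp (f := fun x : α × ℕ => x.1) Smp.id.fst.df
    have hv' := hv.comp (f := fun x : α × ℕ => x.1) Smp.id.fst.df
    have hg' := hg.comp (f := fun x : α × ℕ => x.1) Smp.id.fst.df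
    have hm : Dfn S (fun x : α × ℕ => x.2 ∈ v x.1) := Dfn.pmem Smp.id.snd.df hv'
    exact Dfn.imp (Dfn.lt Smp.id.snd.df hf') (Dfn.or (Dfn.and hm (Pos.dfn hGm hσ Smp.id.snd.df hg'))
      (Dfn.and hm.not (Neg.dfn hGm hT hσ Smp.id.snd.df hg')))

end

end

end Pool.Agent.Lib.Z2.Un
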