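import Pool.Agent.Lib.Z2.Un.R

/-!
# Lemma R and the genericity of `G` over the structure of a limit code (MP_8dbd20_lc, section 7)
-/

set_option linter.unusedVariables false

namespace Pool.Agent.Lib.Z2.Un

open Pool.Agent.Lib.Z2

/-- `S'` is the structure of the limit code `d` of the universe `S`. -/
structure Lv (S S' : Str) (Gm : Set ℕ → Set ℕ) (d : Set ℕ) : Prop where
  pm : S.Pm = S.U
  pm' : S'.Pm = S'.U
  dC : d ∈ S.C
  dn : d ∉ S'.C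
  sub : ∀ X ∈ S'.U, X ∈ S.U
  enu : ∃ E ∈ S.U, ∀ X, X ∈ S'.U ↔ ∃ n, X = sec E n
  cd : ∀ X, X ∈ S'.C ↔ X ∈ S.C ∧ X ∈ S'.U
  mg1 : ∀ F : List (Set ℕ), (∀ c ∈ F, c ∈ S.C ∧ c ∉ S'.C) → ∀ P : ℕ → Prop, Dfn S' P →
    (∀ L, ∃ e, P e ∧ ∀ i ∈ Fst e, L ≤ i) → ∃ e, P e ∧ ∀ c ∈ F, ∀ i ∈ Fst e, i ∉ Gm c
  mg2 : ∀ F : List (Set ℕ), (∀ c ∈ F, c ∈ S.C ∧ c ∉ S'.C) → ∀ P : ℕ → ℕ → Prop,
    Dfn S' (fun x : ℕ × ℕ => P x.1 x.2) →
    (∀ L, ∃ e w, P e w ∧ L ≤ w ∧ w ∉ Fst e ∧ ∀ i ∈ Fst e, L ≤ i) →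
    ∃ e w, P e w ∧ w ∈ Gm d ∧ ∀ c ∈ F, ∀ i ∈ Fst e, i ∉ Gm c

/-- conditions on `T` -/
def CT (S : Str) (T : Set ℕ) (p : Cond) : Prop := IsCond S p ∧ InT T p

/-- the new codes of `x` over `q` -/
def nw (q x : Cond) : Set ℕ := {i | ∃ s ∈ nds q, ∃ k, (s, k) ∈ bts x ∧ ht q ≤ k ∧ i = sg k (ub x s) (ubp x s)}

theorem nw_finite (q x : Cond) : (nw q x).Finite := by
  refine ((List.finite_toSet ((bts x).map (fun y => sg y.2 (ub x y.1) (ubp x y.1)))).subset ?_)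
  rintro i ⟨s, hs, k, hk, -, rfl⟩
  simp only [Set.mem_ofPred_eq, List.mem_map]
  exact ⟨(s, k), hk, rfl⟩

section
variable {S S' : Str} {Gm : Set ℕ → Set ℕ} {d T : Set ℕ} {G : Cond → Prop}

theorem Lv.C_sub (lv : Lv S S' Gm d) : ∀ c ∈ S'.C, c ∈ S.C := fun c hc => ((lv.cd c).1 hc).1

/-- membership in the set of new codes is definable -/
theorem dfn_nw [Good S'] (q : Cond) {α : Type} [Shp α] {f : α → ℕ} {g : α → Cond}
    (hf : DF S' f) (hg : DF S' g) : Dfn S' (fun a => f a ∈ nw q (g a)) := by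
  refine Dfn.allP (g := fun _ : α => nds q) (P := fun a s => ¬ ∃ k, (s, k) ∈ bts (g a) ∧ ht q ≤ k ∧
    f a = sg k (ub (g a) s) (ubp (g a) s)) (DF.constN _) ?_ |>.not |>.congr ?_
  · refine Dfn.not ?_
    refine Dfn.exN (P := fun (x : α × Node) (k : ℕ) => (x.2, k) ∈ bts (g x.1) ∧ ht q ≤ k ∧
      f x.1 = sg k (ub (g x.1) x.2) (ubp (g x.1) x.2)) ?_
    have hg' := hg.comp (f := fun x : (α × Node) × ℕ => x.1.1) Smp.id.fst.fst.df
    have hf' := hf.comp (f := fun x : (α × Node) × ℕ => x.1.1) Smp.id.fst.fst.df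
    refine Dfn.and (Dfn.ub hg' Smp.id.fst.snd.df Smp.id.snd.df)
      (Dfn.and (Dfn.le (DF.constN _) Smp.id.snd.df) (Dfn.eq hf' ?_))
    exact DF.sg Smp.id.snd.df (DF.ub hg' Smp.id.fst.snd.df) (DF.ubp hg' Smp.id.fst.snd.df)
  · intro a _
    unfold nw
    simp only [Set.mem_ofPred_eq]
    push Not
    rfl

theorem dfn_Fst [Good S'] {α : Type} [Shp α] {f g : α → ℕ} (hf : DF S' f) (hg : DF S' g) :
    Dfn S' (fun a => f a ∈ Fst (g a)) := by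
  have hp : PrimrecRel (fun (i e : ℕ) => e.testBit i = true) := by
    have h1 : PrimrecRel (fun (i e : ℕ) => e / 2 ^ i % 2 = 1) := by
      have hpow : Primrec (fun x : ℕ × ℕ => 2 ^ x.1) := by
        have := Primrec.nat_iff.2 (Nat.Primrec.pow)
        have h2 : Primrec₂ (fun a b : ℕ => a ^ b) := Primrec₂.unpaired'.1 Nat.Primrec.pow
        exact h2.comp (Primrec.const 2) Primrec.fst
      exact Primrec.eq.comp (Primrec.nat_mod.comp (Primrec.nat_div.comp Primrec.snd hpow) (Primrec.const 2))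
        (Primrec.const 1)
    refine h1.of_eq (fun i e => ?_)
    rw [Nat.testBit_eq_decide_div_mod_eq]
    simp
  exact Dfn.prim₂ (p := fun i e : ℕ => e.testBit i = true) hp hf hg

/-- LEMMA R -/
theorem lemR [Good S] [Good S'] (hGm : Dfn S' (fun x : ℕ × Set ℕ => x.1 ∈ Gm x.2)) (lv : Lv S S' Gm d)
    (hTU : T ∈ S'.U) {D : Cond → Prop} (hD : Dfn S' D)
    (hd : ∀ p, CT S' T p → ∃ q, CT S' T q ∧ Le Gm q p ∧ D q) {q : Cond} (hq : CT S T q) :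
    ∃ x, CT S' T x ∧ D x ∧ Le Gm x (low S' q) ∧ Le Gm (adF x (fs q)) q := by
  classical
  have hlq : CT S' T (low S' q) := ⟨low_cond hq.1, hq.2⟩
  let P : ℕ → Prop := fun e => ∃ x : Cond, vl S'.U x ∧
    ((IsCond S' x ∧ InT T x) ∧ D x ∧ Le Gm x (low S' q) ∧ ∀ i : ℕ, i ∈ Fst e ↔ i ∈ nw q x)
  have hP : Dfn S' P := by
    refine Dfn.exV (P := fun (e : ℕ) (x : Cond) => (IsCond S' x ∧ InT T x) ∧ D x ∧ Le Gm x (low S' q) ∧
      ∀ i : ℕ, i ∈ Fst e ↔ i ∈ nw q x) ?_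
    have hx : DF S' (fun y : ℕ × Cond => y.2) := Smp.id.snd.df
    refine Dfn.and (Dfn.and (Dfn.isCond hx) (Dfn.inT (DF.constR (by rw [lv.pm']; exact hTU)) hx)) ?_
    refine Dfn.and (hD.comp hx) (Dfn.and ?_ ?_)
    · refine Dfn.le' hGm hx (DF.constCond ?_)
      intro X hX
      rw [lv.pm']
      exact Good.cu X ((low_cond hq.1).2.2 X hX)
    · refine Dfn.allN (P := fun (y : ℕ × Cond) (i : ℕ) => i ∈ Fst y.1 ↔ i ∈ nw q y.2) ?_
      exact Dfn.iff (dfn_Fst Smp.id.snd.df Smp.id.fst.fst.df) (dfn_nw q Smp.id.snd.df Smp.id.fst.snd.df)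
  obtain ⟨e, ⟨x, hxv, hxT, hxD, hxq, hxe⟩, he⟩ := lv.mg1 ((fs q).filter (fun c => decide (c ∉ S'.C)))
    (by
      intro c hc
      have := List.mem_filter.1 hc
      exact ⟨hq.1.2.2 c this.1, by simpa using this.2⟩) P hP (by
    intro L
    obtain ⟨x, hxT, hxz, hxD⟩ := hd (zx (low S' q) L) ⟨zx_cond hlq.1 L, hlq.2⟩
    obtain ⟨e, he⟩ := exists_Fst (nw_finite q x)
    refine ⟨e, ⟨x, cond_vl hxT.1, hxT, hxD, le_trans (zx_cond hlq.1 L) hxz (zx_le hlq.1 L),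
      fun i => by rw [he]⟩, ?_⟩
    intro i hi
    rw [he] at hi
    obtain ⟨s, hs, k, hk, hk', rfl⟩ := hi
    exact _root_.le_trans (le_zx_new hlq.1 hxz hs hk hk') (le_sg _ _ _))
  refine ⟨x, hxT, hxD, hxq, adF_le hxq ?_⟩
  intro c hc hcC s hs k hk hk'
  refine he c (List.mem_filter.2 ⟨hc, by simpa using hcC⟩) _ ((hxe _).2 ⟨s, hs, k, hk, hk', rfl⟩)

/-- GENERICITY of the low part of `G` on `T` -/
theorem genD [Good S] [Good S'] (hGm : Dfn S' (fun x : ℕ × Set ℕ => x.1 ∈ Gm x.2))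
    (hGm' : Dfn S (fun x : ℕ × Set ℕ => x.1 ∈ Gm x.2)) (lv : Lv S S' Gm d)
    (hG : Gen S Gm G)
    (hTU : T ∈ S'.U) (hT : ∀ s : Node, inn T s → inn T s.tail) {D : Cond → Prop} (hD : Dfn S' D)
    (hd : ∀ p, CT S' T p → ∃ q, CT S' T q ∧ Le Gm q p ∧ D q) :
    ∃ x, G x ∧ CT S' T x ∧ D x := by
  have hD1 : Dfn S' (fun x : Cond => (IsCond S' x ∧ InT T x) ∧ D x) :=
    Dfn.and (Dfn.and (Dfn.isCond DF.id) (Dfn.inT (DF.constR (by rw [lv.pm']; exact hTU)) DF.id)) hD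
  have hD2 := dfn_rel lv.pm lv.pm' lv.enu lv.cd lv.sub hD1
  have hD3 : Dfn S (fun q : Cond => ∃ x : Cond, vl S.U x ∧
      ((vl S'.U x ∧ (IsCond S' x ∧ InT T x) ∧ D x) ∧ Le Gm q x)) := by
    refine Dfn.exV (P := fun (q x : Cond) => (vl S'.U x ∧ (IsCond S' x ∧ InT T x) ∧ D x) ∧ Le Gm q x) ?_
    exact Dfn.and (hD2.comp (f := fun y : Cond × Cond => y.2) Smp.id.snd.df)
      (Dfn.le' hGm' Smp.id.fst.df Smp.id.snd.df)
  obtain ⟨q, hq, x, -, ⟨-, hxT, hxD⟩, hqx⟩ := hG.meet _ hD3 (by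
    intro p hp
    have hrp : CT S T (res T p) := ⟨res_cond hT hp, res_inT⟩
    obtain ⟨x, hxT, hxD, hxq, hxa⟩ := lemR hGm lv hTU hD hd hrp
    have hac : IsCond S (adF x (fs (res T p))) := adF_cond hxT.1 lv.C_sub hrp.1.2.2
    have haT : InT T (adF x (fs (res T p))) := hxT.2
    have hle : ht p ≤ ht (adF x (fs (res T p))) := hxa.2.1
    refine ⟨jnc (adF x (fs (res T p))) p, jnc_cond hac hp hle, jnc_le_right hT hac haT hp hxa, x, ?_, ?_, ?_⟩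
    · exact ⟨PShp.vl_all _ _, fun c hc => Good.cu c (lv.C_sub c (hxT.1.2.2 c hc))⟩
    · exact ⟨cond_vl hxT.1, hxT, hxD⟩
    · exact le_trans hac (jnc_le_left hac haT hp hxa) (adF_le_self hxT.1))
  refine ⟨x, hG.up q x hq ⟨hxT.1.1, hxT.1.2.1, fun c hc => lv.C_sub c (hxT.1.2.2 c hc)⟩ hqx, hxT, hxD⟩

/-- the low part of `G` is directed -/
theorem dirD (lv : Lv S S' Gm d) (hG : Gen S Gm G) (hT : ∀ s : Node, inn T s → inn T s.tail) {p q : Cond}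
    (hp : G p) (hpT : CT S' T p) (hq : G q) (hqT : CT S' T q) :
    ∃ r, G r ∧ CT S' T r ∧ Le Gm r p ∧ Le Gm r q := by
  obtain ⟨r, hr, hrp, hrq⟩ := hG.dir p q hp hq
  have hrc := hG.cond r hr
  have h1 : CT S' T (low S' (res T r)) := ⟨low_cond (res_cond hT hrc), res_inT⟩
  have h2 : IsCond S (low S' (res T r)) := ⟨h1.1.1, h1.1.2.1, fun c hc => lv.C_sub c (h1.1.2.2 c hc)⟩
  refine ⟨low S' (res T r), ?_, h1, ?_, ?_⟩
  · exact hG.up r _ hr h2 (le_trans (res_cond hT hrc) (le_res hrc) (le_low (res_cond hT hrc)))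
  · have := low_mono (S' := S') (res_mono hT hrp)
    rwa [res_self hpT.1 hpT.2, low_self hpT.1] at this
  · have := low_mono (S' := S') (res_mono hT hrq)
    rwa [res_self hqT.1 hqT.2, low_self hqT.1] at this

end

end Pool.Agent.Lib.Z2.Un
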