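import Pool.Agent.Lib.Z2.Un.D

/-!
# The order of conditions: elementary lemmas (MP_8dbd20_lc, section 7)
-/

set_option linter.unusedVariables false

namespace Pool.Agent.Lib.Z2.Un

open Pool.Agent.Lib.Z2

variable {S S' : Str} {Gm : Set ℕ → Set ℕ} {p q r : Cond} {T : Set ℕ}

theorem ub_agree (h : Le Gm r q) {s : Node} (hs : s ∈ nds q) : ∀ k < ht q, (k ∈ ub r s ↔ k ∈ ub q s) :=
  fun k hk => h.2.2.1 s hs k hk

theorem ubp_agree (hq : IsCond S q) (h : Le Gm r q) {s : Node} (hs : s ∈ nds q) :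
    ∀ k < ht q, (k ∈ ubp r s ↔ k ∈ ubp q s) := by
  intro k hk
  have := h.2.2.1 s.tail (hq.1 s hs) k hk
  exact and_congr_right (fun _ => this)

theorem sg_agree (hq : IsCond S q) (h : Le Gm r q) {s : Node} (hs : s ∈ nds q) {k : ℕ} (hk : k ≤ ht q) :
    sg k (ub r s) (ubp r s) = sg k (ub q s) (ubp q s) :=
  sg_congr (fun j hj => ub_agree h hs j (by omega)) (fun j hj => ubp_agree hq h hs j (by omega))

theorem le_refl (hp : IsCond S p) : Le Gm p p := by
  refine ⟨fun s h => h, _root_.le_refl _, fun s _ k _ => Iff.rfl, fun c h => h, ?_⟩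
  intro s hs k hk hk' c hc
  have := (hp.2.1 _ hk).2
  simp only at this
  omega

theorem le_trans (hq : IsCond S q) (h1 : Le Gm r q) (h2 : Le Gm q p) : Le Gm r p := by
  refine ⟨fun s h => h1.1 s (h2.1 s h), _root_.le_trans h2.2.1 h1.2.1, ?_, fun c h => h1.2.2.2.1 c (h2.2.2.2.1 c h), ?_⟩
  · intro s hs k hk
    rw [h1.2.2.1 s (h2.1 s hs) k (lt_of_lt_of_le hk h2.2.1), h2.2.2.1 s hs k hk]
  · intro s hs k hk hk' c hc
    by_cases hkq : k < ht q
    · have h3 : (s, k) ∈ bts q := (h1.2.2.1 s (h2.1 s hs) k hkq).1 hk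
      rw [sg_agree hq h1 (h2.1 s hs) (le_of_lt hkq)]
      exact h2.2.2.2.2 s hs k h3 hk' c hc
    · exact h1.2.2.2.2 s (h2.1 s hs) k hk (by omega) c (h2.2.2.2.1 c hc)

/-! ### the low part -/

open Classical in
/-- the low part of a condition: only the codes in `S'.C` -/
noncomputable def low (S' : Str) (p : Cond) : Cond := (p.1, p.2.filter (fun c => decide (c ∈ S'.C)))

theorem mem_low {c : Set ℕ} : c ∈ fs (low S' p) ↔ c ∈ fs p ∧ c ∈ S'.C := by
  simp [low, fs]

theorem low_cond (hp : IsCond S p) : IsCond S' (low S' p) :=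
  ⟨hp.1, hp.2.1, fun c hc => (mem_low.1 hc).2⟩

theorem low_inT (hp : InT T p) : InT T (low S' p) := hp

theorem le_low (hp : IsCond S p) : Le Gm p (low S' p) := by
  refine ⟨fun s h => h, _root_.le_refl _, fun s _ k _ => Iff.rfl, fun c h => (mem_low.1 h).1, ?_⟩
  intro s hs k hk hk' c hc
  have := (hp.2.1 _ hk).2
  have h2 : ht (low S' p) = ht p := rfl
  simp only at this
  omega

theorem low_mono (h : Le Gm q p) : Le Gm (low S' q) (low S' p) := by
  refine ⟨h.1, h.2.1, h.2.2.1, fun c hc => ?_, ?_⟩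
  · rw [mem_low] at hc ⊢
    exact ⟨h.2.2.2.1 c hc.1, hc.2⟩
  · intro s hs k hk hk' c hc
    exact h.2.2.2.2 s hs k hk hk' c (mem_low.1 hc).1

theorem low_self (hp : IsCond S' p) : low S' p = p := by
  classical
  have : p.2.filter (fun c => decide (c ∈ S'.C)) = p.2 := by
    apply List.filter_eq_self.2
    intro c hc
    simpa using hp.2.2 c hc
  show (p.1, _) = p
  rw [this]

/-! ### the part on the nodes in `T` -/

theorem mem_nds_res {s : Node} : s ∈ nds (res T p) ↔ s ∈ nds p ∧ inn T s := by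
  simp [res, nds]

theorem mem_bts_res {x : Node × ℕ} : x ∈ bts (res T p) ↔ x ∈ bts p ∧ inn T x.1 := by
  simp [res, bts]

theorem ht_res : ht (res T p) = ht p := rfl
theorem fs_res : fs (res T p) = fs p := rfl

theorem res_cond (hT : ∀ s : Node, inn T s → inn T s.tail) (hp : IsCond S p) : IsCond S (res T p) := by
  refine ⟨fun s hs => ?_, fun x hx => ?_, hp.2.2⟩
  · rw [mem_nds_res] at hs ⊢
    exact ⟨hp.1 s hs.1, hT s hs.2⟩
  · rw [mem_bts_res] at hx
    rw [mem_nds_res]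
    exact ⟨⟨(hp.2.1 x hx.1).1, hx.2⟩, (hp.2.1 x hx.1).2⟩

theorem res_inT : InT T (res T p) := fun s hs => (mem_nds_res.1 hs).2

theorem le_res (hp : IsCond S p) : Le Gm p (res T p) := by
  refine ⟨fun s h => (mem_nds_res.1 h).1, _root_.le_refl _, ?_, fun c h => h, ?_⟩
  · intro s hs k hk
    rw [mem_bts_res]
    exact ⟨fun h => ⟨h, (mem_nds_res.1 hs).2⟩, fun h => h.1⟩
  · intro s hs k hk hk' c hc
    have := (hp.2.1 _ hk).2
    have h2 : ht (res T p) = ht p := rfl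
    simp only at this
    omega

theorem sg_res (hT : ∀ s : Node, inn T s → inn T s.tail) {s : Node} (hs : inn T s) (k : ℕ) :
    sg k (ub (res T p) s) (ubp (res T p) s) = sg k (ub p s) (ubp p s) := by
  apply sg_congr
  · intro j _
    show (s, j) ∈ bts (res T p) ↔ (s, j) ∈ bts p
    rw [mem_bts_res]
    exact ⟨fun h => h.1, fun h => ⟨h, hs⟩⟩
  · intro j _
    show (s ≠ [] ∧ (s.tail, j) ∈ bts (res T p)) ↔ (s ≠ [] ∧ (s.tail, j) ∈ bts p)
    rw [mem_bts_res]
    exact ⟨fun h => ⟨h.1, h.2.1⟩, fun h => ⟨h.1, h.2, hT s hs⟩⟩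

theorem res_mono (hT : ∀ s : Node, inn T s → inn T s.tail) (h : Le Gm q p) : Le Gm (res T q) (res T p) := by
  refine ⟨fun s hs => ?_, h.2.1, fun s hs k hk => ?_, h.2.2.2.1, ?_⟩
  · rw [mem_nds_res] at hs ⊢
    exact ⟨h.1 s hs.1, hs.2⟩
  · rw [mem_bts_res, mem_bts_res, h.2.2.1 s (mem_nds_res.1 hs).1 k hk]
  · intro s hs k hk hk' c hc
    rw [sg_res hT (mem_nds_res.1 hs).2]
    exact h.2.2.2.2 s (mem_nds_res.1 hs).1 k (mem_bts_res.1 hk).1 hk' c hc

theorem res_self (hp : IsCond S p) (hpT : InT T p) : res T p = p := by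
  classical
  have h1 : (nds p).filter (fun s => decide (inn T s)) = nds p := by
    apply List.filter_eq_self.2
    intro s hs
    simpa using hpT s hs
  have h2 : (bts p).filter (fun x => decide (inn T x.1)) = bts p := by
    apply List.filter_eq_self.2
    intro x hx
    simpa using hpT _ (hp.2.1 x hx).1
  unfold res
  rw [h1, h2]
  rfl

/-! ### extension by zeros -/

/-- extension by zeros to the height at least `L` -/
def zx (p : Cond) (L : ℕ) : Cond := ((nds p, max L (ht p), bts p), fs p)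

theorem zx_cond (hp : IsCond S p) (L : ℕ) : IsCond S (zx p L) := by
  refine ⟨hp.1, fun x hx => ⟨(hp.2.1 x hx).1, ?_⟩, hp.2.2⟩
  exact lt_of_lt_of_le (hp.2.1 x hx).2 (le_max_right _ _)

theorem zx_inT (hp : InT T p) (L : ℕ) : InT T (zx p L) := hp

theorem zx_le (hp : IsCond S p) (L : ℕ) : Le Gm (zx p L) p := by
  refine ⟨fun s h => h, le_max_right _ _, fun s _ k _ => Iff.rfl, fun c h => h, ?_⟩
  intro s hs k hk hk' c hc
  have := (hp.2.1 _ hk).2
  simp only at this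
  omega

theorem le_zx_new (hp : IsCond S p) {L : ℕ} (h : Le Gm q (zx p L)) {s : Node} (hs : s ∈ nds p) {k : ℕ}
    (hk : (s, k) ∈ bts q) (hk' : ht p ≤ k) : L ≤ k := by
  by_contra hc
  have h1 : k < ht (zx p L) := lt_of_lt_of_le (not_le.1 hc) (le_max_left _ _)
  have h2 : (s, k) ∈ bts p := (h.2.2.1 s hs k h1).1 hk
  have := (hp.2.1 _ h2).2
  simp only at this
  omega

/-! ### adding codes -/

/-- add codes -/
def adF (x : Cond) (F : List (Set ℕ)) : Cond := (x.1, x.2 ++ F)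

theorem mem_adF {x : Cond} {F : List (Set ℕ)} {c : Set ℕ} : c ∈ fs (adF x F) ↔ c ∈ fs x ∨ c ∈ F := by
  simp [adF, fs]

theorem adF_cond {x : Cond} {F : List (Set ℕ)} (hx : IsCond S' x) (hC : ∀ c ∈ S'.C, c ∈ S.C)
    (hF : ∀ c ∈ F, c ∈ S.C) : IsCond S (adF x F) := by
  refine ⟨hx.1, hx.2.1, fun c hc => ?_⟩
  rcases mem_adF.1 hc with h | h
  · exact hC c (hx.2.2 c h)
  · exact hF c h

theorem adF_le_self {x : Cond} {F : List (Set ℕ)} (hx : IsCond S' x) : Le Gm (adF x F) x := by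
  refine ⟨fun s h => h, _root_.le_refl _, fun s _ k _ => Iff.rfl, fun c h => mem_adF.2 (Or.inl h), ?_⟩
  intro s hs k hk hk' c hc
  have := (hx.2.1 (s, k) hk).2
  simp only at this
  omega

theorem adF_le {x : Cond} (h : Le Gm x (low S' q))
    (hn : ∀ c ∈ fs q, c ∉ S'.C → ∀ s ∈ nds q, ∀ k, (s, k) ∈ bts x → ht q ≤ k → sg k (ub x s) (ubp x s) ∉ Gm c) :
    Le Gm (adF x (fs q)) q := by
  refine ⟨h.1, h.2.1, h.2.2.1, fun c hc => mem_adF.2 (Or.inr hc), ?_⟩
  intro s hs k hk hk' c hc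
  by_cases hcC : c ∈ S'.C
  · exact h.2.2.2.2 s hs k hk hk' c (mem_low.2 ⟨hc, hcC⟩)
  · exact hn c hc hcC s hs k hk hk'

theorem low_adF_le {x : Cond} {F : List (Set ℕ)} (hx : IsCond S' x) : Le Gm (low S' (adF x F)) x := by
  refine ⟨fun s h => h, _root_.le_refl _, fun s _ k _ => Iff.rfl,
    fun c h => mem_low.2 ⟨mem_adF.2 (Or.inl h), hx.2.2 c h⟩, ?_⟩
  intro s hs k hk hk' c hc
  have := (hx.2.1 (s, k) hk).2
  simp only at this
  omega

/-! ### joining a condition on `T` with a condition -/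

theorem mem_nds_jnc {s : Node} : s ∈ nds (jnc q p) ↔ s ∈ nds q ∨ s ∈ nds p := by
  simp [jnc, nds]

theorem mem_bts_jnc {x : Node × ℕ} : x ∈ bts (jnc q p) ↔ x ∈ bts q ∨ x ∈ bts p := by
  simp [jnc, bts]

theorem mem_fs_jnc {c : Set ℕ} : c ∈ fs (jnc q p) ↔ c ∈ fs q ∨ c ∈ fs p := by
  simp [jnc, fs]

theorem jnc_cond (hq : IsCond S q) (hp : IsCond S p) (h : ht p ≤ ht q) : IsCond S (jnc q p) := by
  refine ⟨fun s hs => ?_, fun x hx => ?_, fun c hc => ?_⟩
  · rw [mem_nds_jnc] at hs ⊢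
    exact hs.imp (hq.1 s) (hp.1 s)
  · rw [mem_bts_jnc] at hx
    rw [mem_nds_jnc]
    rcases hx with hx | hx
    · exact ⟨Or.inl (hq.2.1 x hx).1, (hq.2.1 x hx).2⟩
    · exact ⟨Or.inr (hp.2.1 x hx).1, lt_of_lt_of_le (hp.2.1 x hx).2 h⟩
  · rcases mem_fs_jnc.1 hc with h | h
    · exact hq.2.2 c h
    · exact hp.2.2 c h

theorem jnc_le_left (hq : IsCond S q) (hqT : InT T q) (hp : IsCond S p) (h : Le Gm q (res T p)) :
    Le Gm (jnc q p) q := by
  refine ⟨fun s hs => mem_nds_jnc.2 (Or.inl hs), _root_.le_refl _, fun s hs k hk => ?_,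
    fun c hc => mem_fs_jnc.2 (Or.inl hc), ?_⟩
  · rw [mem_bts_jnc]
    constructor
    · rintro (h1 | h1)
      · exact h1
      · have h2 := hp.2.1 _ h1
        have h3 : s ∈ nds (res T p) := mem_nds_res.2 ⟨h2.1, hqT s hs⟩
        exact (h.2.2.1 s h3 k h2.2).2 (mem_bts_res.2 ⟨h1, hqT s hs⟩)
    · exact Or.inl
  · intro s hs k hk hk' c hc
    exfalso
    have h0 : ht p ≤ ht q := h.2.1
    rcases mem_bts_jnc.1 hk with h1 | h1
    · have := (hq.2.1 _ h1).2
      simp only at this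
      omega
    · have := (hp.2.1 _ h1).2
      simp only at this
      omega

theorem jnc_le_right (hT : ∀ s : Node, inn T s → inn T s.tail)
    (hq : IsCond S q) (hqT : InT T q) (hp : IsCond S p) (h : Le Gm q (res T p)) :
    Le Gm (jnc q p) p := by
  have hl := jnc_le_left (Gm := Gm) hq hqT hp h
  refine ⟨fun s hs => mem_nds_jnc.2 (Or.inr hs), h.2.1, fun s hs k hk => ?_,
    fun c hc => mem_fs_jnc.2 (Or.inr hc), ?_⟩
  · rw [mem_bts_jnc]
    constructor
    · rintro (h1 | h1)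
      · have h2 := hq.2.1 _ h1
        have h3 : s ∈ nds (res T p) := mem_nds_res.2 ⟨hs, hqT s h2.1⟩
        exact (mem_bts_res.1 ((h.2.2.1 s h3 k hk).1 h1)).1
      · exact h1
    · exact Or.inr
  · intro s hs k hk hk' c hc
    rcases mem_bts_jnc.1 hk with h1 | h1
    · have h2 := hq.2.1 _ h1
      have h3 : s ∈ nds (res T p) := mem_nds_res.2 ⟨hs, hqT s h2.1⟩
      rw [sg_agree hq hl h2.1 (le_of_lt h2.2)]
      exact h.2.2.2.2 s h3 k h1 hk' c hc
    · have := (hp.2.1 _ h1).2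
      simp only at this
      omega

end Pool.Agent.Lib.Z2.Un
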