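import Pool.Agent.Lib.Z2.Un.O

/-!
# Relativization to the structure of a limit code, finite sets (MP_8dbd20_lc, section 7)
-/

set_option linter.unusedVariables false

namespace Pool.Agent.Lib.Z2.Un

open Pool.Agent.Lib.Z2
open Nat.Partrec (Code)

/-- the finite set of numbers coded by `e` -/
def Fst (e : ℕ) : Set ℕ := {i | e.testBit i = true}

theorem exists_Fst {A : Set ℕ} (hA : A.Finite) : ∃ e, Fst e = A := by
  induction A, hA using Set.Finite.induction_on with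
  | empty => exact ⟨0, by ext i; simp [Fst]⟩
  | @insert a s ha hs ih =>
    obtain ⟨e, he⟩ := ih
    refine ⟨e ||| 2 ^ a, ?_⟩
    ext i
    have h1 : i ∈ Fst e ↔ i ∈ s := by rw [he]
    simp only [Fst, Set.mem_ofPred_eq, Nat.testBit_or, Nat.testBit_two_pow, Bool.or_eq_true,
      decide_eq_true_eq, Set.mem_insert_iff] at h1 ⊢
    rw [h1]
    constructor
    · rintro (h | h)
      · exact Or.inr h
      · exact Or.inl h.symm
    · rintro (h | h)
      · exact Or.inr h.symm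
      · exact Or.inl h

section
variable {S S' : Str} {α β : Type} [Shp α] [Shp β]

theorem dfn_ceval [Good S] (c : Code) : Dfn S (fun x : ℕ × ℕ => x.2 ∈ c.eval x.1) := by
  have h : Dfn S (fun x : ℕ × ℕ => ∃ k : ℕ, Code.evaln k c x.1 = some x.2) := by
    refine Dfn.exN (P := fun (x : ℕ × ℕ) (k : ℕ) => Code.evaln k c x.1 = some x.2) ?_
    refine Dfn.eq (f := fun x : (ℕ × ℕ) × ℕ => Code.evaln x.2 c x.1.1) ?_ ?_
    · have hp : Primrec (fun x : (ℕ × ℕ) × ℕ => Code.evaln x.2 c x.1.1) :=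
        Code.primrec_evaln.comp (Primrec.pair (Primrec.pair Primrec.snd (Primrec.const c))
          (Primrec.fst.comp Primrec.fst))
      exact DF.prim hp DF.id
    · exact DF.prim Primrec.option_some Smp.id.fst.snd.df
  refine h.congr (fun x _ => ?_)
  rw [Code.evaln_complete]
  rfl

theorem df_pre [Good S] (c : Code) {f : α → Set ℕ} (hf : DF S f) : DF S (fun a => pre c (f a)) := by
  refine DF.set (fun a ha => Good.up c _ (hf.1 a ha)) ?_
  refine Dfn.exN (P := fun (x : α × ℕ) (m : ℕ) => m + 1 ∈ c.eval x.2 ∧ m ∈ f x.1) ?_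
  refine Dfn.and ?_ (Dfn.mem Smp.id.snd.df (hf.comp Smp.id.fst.fst.df))
  exact Dfn.comp₂ (R := fun n m => m ∈ c.eval n) (dfn_ceval c) Smp.id.fst.snd.df
    (DF.add Smp.id.snd.df (DF.constN 1))

/-- membership in `S'.U` -/
theorem dfn_U' [Good S] (pm : S.Pm = S.U) (enu : ∃ E ∈ S.U, ∀ X, X ∈ S'.U ↔ ∃ n, X = sec E n)
    {f : α → Set ℕ} (hf : DF S f) : Dfn S (fun a => f a ∈ S'.U) := by
  obtain ⟨E, hE, hX⟩ := enu
  have h : Dfn S (fun a => ∃ n : ℕ, f a = sec E n) := by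
    refine Dfn.exN (P := fun (a : α) (n : ℕ) => f a = sec E n) ?_
    refine Dfn.eq (hf.comp Smp.id.fst.df) (DF.sec (DF.constR (by rw [pm]; exact hE)) Smp.id.snd.df)
  exact h.congr (fun a _ => hX _)

theorem dfn_sat' [Good S] [Good S'] (pm : S.Pm = S.U)
    (enu : ∃ E ∈ S.U, ∀ X, X ∈ S'.U ↔ ∃ n, X = sec E n)
    (cd : ∀ X, X ∈ S'.C ↔ X ∈ S.C ∧ X ∈ S'.U) (φ : Fa) :
    Dfn S (fun x : ℕ × Set ℕ => Sat S' φ x.1 x.2) := by
  induction φ with
  | mem => exact dfn_mem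
  | isC =>
    refine ((Dfn.isC (S := S) (α := ℕ × Set ℕ) Smp.id.snd.df).and (dfn_U' pm enu Smp.id.snd.df)).congr ?_
    intro x _
    exact cd x.2
  | neg φ ih => exact ih.not
  | and φ ψ ih1 ih2 => exact ih1.and ih2
  | exN φ ih =>
    refine Dfn.exN (P := fun (x : ℕ × Set ℕ) (m : ℕ) => Sat S' φ (Nat.pair m x.1) x.2) ?_
    exact Dfn.comp₂ (R := fun n X => Sat S' φ n X) ih (DF.natPair Smp.id.snd.df Smp.id.fst.fst.df) Smp.id.fst.snd.df
  | exR φ ih =>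
    have h := enu
    obtain ⟨E, hE, hX⟩ := h
    have h : Dfn S (fun x : ℕ × Set ℕ => ∃ n : ℕ, Sat S' φ x.1 (jn (sec E n) x.2)) := by
      refine Dfn.exN (P := fun (x : ℕ × Set ℕ) (n : ℕ) => Sat S' φ x.1 (jn (sec E n) x.2)) ?_
      exact Dfn.comp₂ (R := fun n X => Sat S' φ n X) ih Smp.id.fst.fst.df
        (DF.jn (DF.sec (DF.constR (by rw [pm]; exact hE)) Smp.id.snd.df) Smp.id.fst.snd.df)
    refine h.congr (fun x _ => ?_)
    simp only [Sat]
    constructor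
    · rintro ⟨Y, hY, h⟩
      obtain ⟨n, rfl⟩ := (hX Y).1 hY
      exact ⟨n, h⟩
    · rintro ⟨n, h⟩
      exact ⟨_, (hX _).2 ⟨n, rfl⟩, h⟩
  | subN c φ ih =>
    refine Dfn.exN (P := fun (x : ℕ × Set ℕ) (m : ℕ) => m ∈ c.eval x.1 ∧ Sat S' φ m x.2) ?_
    refine Dfn.and ?_ ?_
    · exact Dfn.comp₂ (R := fun n m => m ∈ c.eval n) (dfn_ceval c) Smp.id.fst.fst.df Smp.id.snd.df
    · exact Dfn.comp₂ (R := fun n X => Sat S' φ n X) ih Smp.id.snd.df Smp.id.fst.snd.df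
  | subR c φ ih =>
    exact Dfn.comp₂ (R := fun n X => Sat S' φ n X) ih Smp.id.fst.df (df_pre c Smp.id.snd.df)

/-- RELATIVIZATION: a predicate definable over the structure of a limit code is definable. -/
theorem dfn_rel [Good S] [Good S'] (pm : S.Pm = S.U) (pm' : S'.Pm = S'.U)
    (enu : ∃ E ∈ S.U, ∀ X, X ∈ S'.U ↔ ∃ n, X = sec E n)
    (cd : ∀ X, X ∈ S'.C ↔ X ∈ S.C ∧ X ∈ S'.U) (sub : ∀ X ∈ S'.U, X ∈ S.U) {P : α → Prop} (h : Dfn S' P) :
    Dfn S (fun a => vl S'.U a ∧ P a) := by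
  obtain ⟨φ, A, hA, hP⟩ := h
  have hA' : A ∈ S.Pm := by
    rw [pm]; exact sub A (by rw [← pm']; exact hA)
  have h1 : Dfn S (fun a : α => re a ∈ S'.U) := dfn_U' pm enu (DF.re DF.id)
  have h2 : Dfn S (fun a : α => Sat S' (Shp.rng α) (num a) (re a)) :=
    Dfn.comp₂ (R := fun n X => Sat S' (Shp.rng α) n X) (dfn_sat' pm enu cd _) (DF.num DF.id) (DF.re DF.id)
  have h3 : Dfn S (fun a : α => Sat S' φ (num a) (jn A (re a))) :=
    Dfn.comp₂ (R := fun n X => Sat S' φ n X) (dfn_sat' pm enu cd _) (DF.num DF.id)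
      (DF.jn (DF.constR hA') (DF.re DF.id))
  refine ((h1.and h2).and h3).congr (fun a _ => ?_)
  constructor
  · rintro ⟨hv, hPa⟩
    have hr := Shp.re_mem S' a hv
    exact ⟨⟨hr, (Shp.rng_spec S' _ _ hr).2 ⟨a, hv, rfl, rfl⟩⟩, (hP a hv).1 hPa⟩
  · rintro ⟨⟨hr, h⟩, h'⟩
    obtain ⟨b, hb, hb1, hb2⟩ := (Shp.rng_spec S' _ _ hr).1 h
    have : b = a := Shp.inj _ _ hb1 hb2
    subst this
    exact ⟨hb, (hP b hb).2 h'⟩

end

end Pool.Agent.Lib.Z2.Un
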