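import Pool.Agent.Lib.Z2.Un.E

/-!
# Uniqueness of certified pairs (MP_8dbd20_lc, section 7)
-/

set_option linter.unusedVariables false

namespace Pool.Agent.Lib.Z2.Un

open Pool.Agent.Lib.Z2

/-- the generic real at the parent of `s` (empty for the root) -/
def gp (G : Cond → Prop) (s : Node) : Set ℕ := {k | s ≠ [] ∧ k ∈ gen G s.tail}

/-- `x` shows a difference at the place `i` between the pair named by `(σ, τ)` and the pair of `s` -/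
def Dff (S : Str) (T : Set ℕ) (Gm : Set ℕ → Set ℕ) (σ τ : Set ℕ) (s : Node) (i : ℕ) (x : Cond) : Prop :=
  s ∈ nds x ∧ i < ht x ∧ ((Pos S Gm τ i x ∧ i ∉ ub x s) ∨ (Neg S T Gm τ i x ∧ i ∈ ub x s) ∨
    (Pos S Gm σ i x ∧ i ∉ ubp x s) ∨ (Neg S T Gm σ i x ∧ i ∈ ubp x s))

/-- `x` decides some `k ≥ K` in the real named `τ` whose code is in `Gm d` -/
def Bad (S : Str) (T : Set ℕ) (Gm : Set ℕ → Set ℕ) (σ τ : Set ℕ) (K : ℕ) (w : ℕ) (x : Cond) : Prop :=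
  ∃ k : ℕ, ∃ v v' : List ℕ, K ≤ k ∧ Pos S Gm τ k x ∧ Dci S T Gm τ k v x ∧ Dci S T Gm σ k v' x ∧
    w = Nat.pair k (Nat.pair (Encodable.encode v) (Encodable.encode v'))

/-- add the nodes below `s` -/
def adn (x : Cond) (s : Node) : Cond := ((nds x ++ s.tails, ht x, bts x), fs x)

section
variable {S S' : Str} {Gm : Set ℕ → Set ℕ} {d T σ τ : Set ℕ} {G : Cond → Prop} {x x' p q r : Cond}

theorem mem_nds_adn {s t : Node} : t ∈ nds (adn x s) ↔ t ∈ nds x ∨ t <:+ s := by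
  simp [adn, nds]

theorem adn_cond (hx : IsCond S x) (s : Node) : IsCond S (adn x s) := by
  refine ⟨fun t ht => ?_, fun y hy => ⟨mem_nds_adn.2 (Or.inl (hx.2.1 y hy).1), (hx.2.1 y hy).2⟩, hx.2.2⟩
  rw [mem_nds_adn] at ht ⊢
  exact ht.imp (hx.1 t) (fun h => (List.tail_suffix t).trans h)

theorem inn_suffix (hT : ∀ s : Node, inn T s → inn T s.tail) {s t : Node} (hs : inn T s) (h : t <:+ s) : inn T t := by
  induction s with
  | nil =>
    have : t = [] := List.suffix_nil.1 h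
    subst this; exact hs
  | cons a s ih =>
    rcases List.suffix_cons_iff.1 h with h | h
    · subst h; exact hs
    · exact ih (hT _ hs) h

theorem adn_inT (hT : ∀ s : Node, inn T s → inn T s.tail) (hx : InT T x) {s : Node} (hs : inn T s) : InT T (adn x s) := by
  intro t ht
  rcases mem_nds_adn.1 ht with h | h
  · exact hx t h
  · exact inn_suffix hT hs h

theorem adn_le (hx : IsCond S x) (s : Node) : Le Gm (adn x s) x := by
  refine ⟨fun t h => mem_nds_adn.2 (Or.inl h), _root_.le_refl _, fun s _ k _ => Iff.rfl, fun c h => h, ?_⟩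
  intro t hs k hk hk' c hc
  have := (hx.2.1 (t, k) hk).2
  simp only at this
  omega

theorem mem_gen (hG : Gen S Gm G) (hr : G r) {s : Node} (hs : s ∈ nds r) {i : ℕ} (hi : i < ht r) :
    i ∈ gen G s ↔ i ∈ ub r s := by
  constructor
  · rintro ⟨p, hp, hb⟩
    obtain ⟨r', hr', h1, h2⟩ := hG.dir r p hr hp
    have hpc := hG.cond p hp
    have h3 : (s, i) ∈ bts r' := (h2.2.2.1 s (hpc.2.1 _ hb).1 i (hpc.2.1 _ hb).2).2 hb
    exact (h1.2.2.1 s hs i hi).1 h3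
  · intro h
    exact ⟨r, hr, h⟩

theorem mem_gp (hG : Gen S Gm G) (hr : G r) {s : Node} (hs : s ∈ nds r) {i : ℕ} (hi : i < ht r) :
    i ∈ gp G s ↔ i ∈ ubp r s := by
  exact and_congr_right (fun _ => mem_gen hG hr ((hG.cond r hr).1 s hs) hi)

theorem Dff.mono {s : Node} {i : ℕ} (hx : IsCond S x) (hx' : IsCond S x') (h : Dff S T Gm σ τ s i x)
    (h' : Le Gm x' x) : Dff S T Gm σ τ s i x' := by
  refine ⟨h'.1 s h.1, lt_of_lt_of_le h.2.1 h'.2.1, ?_⟩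
  have h1 := ub_agree h' h.1 i h.2.1
  have h2 := ubp_agree hx h' h.1 i h.2.1
  rw [h1, h2]
  rcases h.2.2 with h3 | h3 | h3 | h3
  · exact Or.inl ⟨h3.1.mono hx h', h3.2⟩
  · exact Or.inr (Or.inl ⟨h3.1.mono hx' h', h3.2⟩)
  · exact Or.inr (Or.inr (Or.inl ⟨h3.1.mono hx h', h3.2⟩))
  · exact Or.inr (Or.inr (Or.inr ⟨h3.1.mono hx' h', h3.2⟩))

theorem dff_ne {s : Node} {i k : ℕ} {v v' : List ℕ} (hx : CT S T x) (h : Dff S T Gm σ τ s i x) (hik : i < k)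
    (hv : Dci S T Gm τ k v x) (hv' : Dci S T Gm σ k v' x) :
    ¬ (v = tr (ub x s) k ∧ v' = tr (ubp x s) k) := by
  rintro ⟨rfl, rfl⟩
  have hn : ∀ ρ, Neg S T Gm ρ i x → ¬ Pos S Gm ρ i x := fun ρ hN => hN x hx (le_refl hx.1)
  rcases h.2.2 with h3 | h3 | h3 | h3
  · rcases hv.2 i hik with h4 | h4
    · exact h3.2 (mem_tr.1 h4.1).2
    · exact hn _ h4.2 h3.1
  · rcases hv.2 i hik with h4 | h4
    · exact hn _ h3.1 h4.2
    · exact h4.1 (mem_tr.2 ⟨hik, h3.2⟩)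
  · rcases hv'.2 i hik with h4 | h4
    · exact h3.2 (mem_tr.1 h4.1).2
    · exact hn _ h4.2 h3.1
  · rcases hv'.2 i hik with h4 | h4
    · exact hn _ h3.1 h4.2
    · exact h4.1 (mem_tr.2 ⟨hik, h3.2⟩)

theorem Dff.dfn [Good S] (hGm : Dfn S (fun x : ℕ × Set ℕ => x.1 ∈ Gm x.2)) (hT : T ∈ S.Pm) (hσ : σ ∈ S.Pm)
    (hτ : τ ∈ S.Pm) {α : Type} [Shp α] {h : α → Node} {f : α → ℕ} {g : α → Cond}
    (hh : DF S h) (hf : DF S f) (hg : DF S g) : Dfn S (fun a => Dff S T Gm σ τ (h a) (f a) (g a)) := by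
  unfold Dff
  have h1 : Dfn S (fun a => f a ∈ ub (g a) (h a)) := Dfn.mem hf (DF.ub hg hh)
  have h2 : Dfn S (fun a => f a ∈ ubp (g a) (h a)) := Dfn.mem hf (DF.ubp hg hh)
  refine Dfn.and (Dfn.pmem hh (DF.nds hg)) (Dfn.and (Dfn.lt hf (DF.ht hg)) ?_)
  refine Dfn.or (Dfn.and (Pos.dfn hGm hτ hf hg) h1.not) (Dfn.or (Dfn.and (Neg.dfn hGm hT hτ hf hg) h1) ?_)
  exact Dfn.or (Dfn.and (Pos.dfn hGm hσ hf hg) h2.not) (Dfn.and (Neg.dfn hGm hT hσ hf hg) h2)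

theorem Bad.dfn [Good S] (hGm : Dfn S (fun x : ℕ × Set ℕ => x.1 ∈ Gm x.2)) (hT : T ∈ S.Pm) (hσ : σ ∈ S.Pm)
    (hτ : τ ∈ S.Pm) (K : ℕ) {α : Type} [Shp α] {f : α → ℕ} {g : α → Cond}
    (hf : DF S f) (hg : DF S g) : Dfn S (fun a => Bad S T Gm σ τ K (f a) (g a)) := by
  unfold Bad
  refine Dfn.exN (P := fun (a : α) (k : ℕ) => ∃ v v' : List ℕ, K ≤ k ∧ Pos S Gm τ k (g a) ∧
    Dci S T Gm τ k v (g a) ∧ Dci S T Gm σ k v' (g a) ∧
    f a = Nat.pair k (Nat.pair (Encodable.encode v) (Encodable.encode v'))) ?_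
  refine Dfn.exN (P := fun (a : α × ℕ) (v : List ℕ) => ∃ v' : List ℕ, K ≤ a.2 ∧ Pos S Gm τ a.2 (g a.1) ∧
    Dci S T Gm τ a.2 v (g a.1) ∧ Dci S T Gm σ a.2 v' (g a.1) ∧
    f a.1 = Nat.pair a.2 (Nat.pair (Encodable.encode v) (Encodable.encode v'))) ?_
  refine Dfn.exN (P := fun (a : (α × ℕ) × List ℕ) (v' : List ℕ) => K ≤ a.1.2 ∧ Pos S Gm τ a.1.2 (g a.1.1) ∧
    Dci S T Gm τ a.1.2 a.2 (g a.1.1) ∧ Dci S T Gm σ a.1.2 v' (g a.1.1) ∧
    f a.1.1 = Nat.pair a.1.2 (Nat.pair (Encodable.encode a.2) (Encodable.encode v'))) ?_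
  have hg' := hg.comp (f := fun x : ((α × ℕ) × List ℕ) × List ℕ => x.1.1.1) Smp.id.fst.fst.fst.df
  have hf' := hf.comp (f := fun x : ((α × ℕ) × List ℕ) × List ℕ => x.1.1.1) Smp.id.fst.fst.fst.df
  have hk : DF S (fun x : ((α × ℕ) × List ℕ) × List ℕ => x.1.1.2) := Smp.id.fst.fst.snd.df
  refine Dfn.and (Dfn.le (DF.constN K) hk) (Dfn.and (Pos.dfn hGm hτ hk hg') (Dfn.and ?_ (Dfn.and ?_ ?_)))
  · exact Dci.dfn hGm hT hτ hk Smp.id.fst.snd.df hg'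
  · exact Dci.dfn hGm hT hσ hk Smp.id.snd.df hg'
  · exact Dfn.eq hf' (DF.natPair hk (DF.natPair (DF.enc Smp.id.fst.snd.df) (DF.enc Smp.id.snd.df)))

/-- dense alternative over the level: some member of `G` on `T` is in `E` or has no extension in `E` -/
theorem alt [Good S] [Good S'] (hGm : Dfn S' (fun x : ℕ × Set ℕ => x.1 ∈ Gm x.2))
    (hGm' : Dfn S (fun x : ℕ × Set ℕ => x.1 ∈ Gm x.2)) (lv : Lv S S' Gm d)
    (hG : Gen S Gm G) (hTU : T ∈ S'.U) (hT : ∀ s : Node, inn T s → inn T s.tail) {E : Cond → Prop} (hE : Dfn S' E) :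
    ∃ x, G x ∧ CT S' T x ∧ (E x ∨ ∀ x', CT S' T x' → Le Gm x' x → ¬ E x') := by
  have hTp : T ∈ S'.Pm := by rw [lv.pm']; exact hTU
  refine genD hGm hGm' lv hG hTU hT (D := fun x => E x ∨ ∀ x', CT S' T x' → Le Gm x' x → ¬ E x') ?_ ?_
  · have h : Dfn S' (fun x : Cond => E x ∨ ∀ x', vl S'.U x' → (CT S' T x' → Le Gm x' x → ¬ E x')) := by
      refine Dfn.or hE (Dfn.allV (P := fun (x x' : Cond) => CT S' T x' → Le Gm x' x → ¬ E x') ?_)
      exact Dfn.imp (CT.dfn hTp Smp.id.snd.df) (Dfn.imp (Dfn.le' hGm Smp.id.snd.df Smp.id.fst.df)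
        (hE.comp Smp.id.snd.df).not)
    refine h.congr (fun x _ => or_congr_right ⟨fun h x' _ hx' => h x' hx', fun h x' hx' => h x' (cond_vl hx'.1) hx'⟩)
  · intro p hp
    by_cases h : ∃ x', CT S' T x' ∧ Le Gm x' p ∧ E x'
    · obtain ⟨x', h1, h2, h3⟩ := h
      exact ⟨x', h1, h2, Or.inl h3⟩
    · refine ⟨p, hp, le_refl hp.1, Or.inr ?_⟩
      intro x' h1 h2 h3
      exact h ⟨x', h1, h2, h3⟩

end

end Pool.Agent.Lib.Z2.Un
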